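import Mathlib

/-!
Finite invertible automata and the self-similar groups they generate.
-/

set_option autoImplicit false

namespace Pool.Agent.W7h60.Iso

section Transducer

variable {m q : ℕ}

/-- The action of the states on words: `s` sends the empty word to itself and `x w` to
`λ(s, x) t(w)`, where `t = τ(s, x)`. Here `τ` is `next` and `λ(s, ·)` is `out s`. -/
def act (next : Fin m → Fin q → Fin m) (out : Fin m → Equiv.Perm (Fin q)) :
    Fin m → List (Fin q) → List (Fin q)
  | _, [] => []
  | s, x :: w => out s x :: act next out (next s x) w

/-- The inverse of the action. -/
def actInv (next : Fin m → Fin q → Fin m) (out : Fin m → Equiv.Perm (Fin q)) :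
    Fin m → List (Fin q) → List (Fin q)
  | _, [] => []
  | s, x :: w => (out s).symm x :: actInv next out (next s ((out s).symm x)) w

/-- The action of a state as a permutation of the set of words. -/
def actPerm (next : Fin m → Fin q → Fin m) (out : Fin m → Equiv.Perm (Fin q)) (s : Fin m) :
    Equiv.Perm (List (Fin q)) where
  toFun := act next out s
  invFun := actInv next out s
  left_inv w := by
    induction w generalizing s with
    | nil => rfl
    | cons x w ih => simp [act, actInv, ih]
  right_inv w := by
    induction w generalizing s with
    | nil => rfl
    | cons x w ih => simp [act, actInv, ih]

/-- The group generated by the actions of all states. -/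
def selfSimilarGroup (next : Fin m → Fin q → Fin m) (out : Fin m → Equiv.Perm (Fin q)) :
    Subgroup (Equiv.Perm (List (Fin q))) :=
  Subgroup.closure (Set.range (actPerm next out))

end Transducer

/-- A finite invertible automaton: the states are the elements of `Fin states`, the alphabet is
`Fin letters` (at least two letters), `next` is the transition map and `out s` is the permutation
of the alphabet given by the output map at the state `s`. -/
structure Automaton where
  states : ℕ
  letters : ℕ
  two_le : 2 ≤ letters
  next : Fin states → Fin letters → Fin states
  out : Fin states → Equiv.Perm (Fin letters)

/-- The self-similar group of an automaton: the group of permutations of the set of all finite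
words over the alphabet which is generated by the actions of all states. -/
def Automaton.group (A : Automaton) : Subgroup (Equiv.Perm (List (Fin A.letters))) :=
  selfSimilarGroup A.next A.out

/-- The input which an algorithm receives: the number of letters and the finite tables of the
transition map and of the output map (one row for each state, one entry for each letter). -/
def Automaton.code (A : Automaton) : ℕ × List (List (ℕ × ℕ)) :=
  (A.letters, List.ofFn fun s => List.ofFn fun x => ((A.next s x : ℕ), (A.out s x : ℕ)))

end Pool.Agent.W7h60.Iso
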