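import Mathlib
import Pool.Agent.W7h60.Iso.Defs

set_option autoImplicit false

namespace Pool.Agent.W7h60.Iso

/-- A binary number system on an abelian group. -/
structure Dig (V : Type) [AddCommGroup V] (q : ℕ) where
  δ : Fin q → V
  ex : ∀ v, ∃ r x, v = δ r + (2 : ℕ) • x
  uniq : ∀ r r' x, δ r = δ r' + (2 : ℕ) • x → r = r'
  tf : ∀ x y : V, (2 : ℕ) • x = (2 : ℕ) • y → x = y
  sep : ∀ x : V, (∀ k : ℕ, ∃ y, x = (2 ^ k : ℕ) • y) → x = 0

section

variable {V : Type} [AddCommGroup V] {q : ℕ} (Z : Dig V q)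

/-- The value of a word. -/
def Dig.val : List (Fin q) → V
  | [] => 0
  | r :: w => Z.δ r + (2 : ℕ) • Dig.val w

theorem Dig.val_inj (w w' : List (Fin q)) (h : w.length = w'.length) (y : V)
    (hy : Z.val w = Z.val w' + (2 ^ w.length : ℕ) • y) : w = w' := by
  induction w generalizing w' y with
  | nil =>
    rw [List.length_nil] at h
    exact (List.length_eq_zero_iff.1 h.symm).symm
  | cons r w ih =>
    cases w' with
    | nil => simp at h
    | cons r' w' =>
      simp only [List.length_cons, add_left_inj] at h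
      simp only [Dig.val, List.length_cons] at hy
      have h1 : r = r' := by
        apply Z.uniq r r' (Z.val w' + (2 ^ w.length : ℕ) • y - Z.val w)
        rw [smul_sub, smul_add, smul_smul, ← pow_succ', ← add_sub_assoc, ← add_assoc, ← hy]
        abel
      subst h1
      have h2 : (2 : ℕ) • Z.val w = (2 : ℕ) • (Z.val w' + (2 ^ w.length : ℕ) • y) := by
        rw [smul_add, smul_smul, ← pow_succ']
        rw [add_assoc] at hy
        exact add_left_cancel hy
      rw [ih w' h y (Z.tf _ _ h2)]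

theorem Dig.ex_word (k : ℕ) (x : V) :
    ∃ w : List (Fin q), w.length = k ∧ ∃ y, x = Z.val w + (2 ^ k : ℕ) • y := by
  induction k generalizing x with
  | zero => exact ⟨[], rfl, x, by simp [Dig.val]⟩
  | succ k ih =>
    obtain ⟨r, x', hx⟩ := Z.ex x
    obtain ⟨w, hw, y, hy⟩ := ih x'
    refine ⟨r :: w, by simp [hw], y, ?_⟩
    rw [hx, hy, Dig.val, smul_add, smul_smul, ← pow_succ', add_assoc]

/-- Congruences are preserved. -/
def Cong (f : Equiv.Perm V) : Prop :=
  ∀ (k : ℕ) (x y : V), ∃ z, f (x + (2 ^ k : ℕ) • y) = f x + (2 ^ k : ℕ) • z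

/-- The permutation of words follows the map. -/
def Fol (p : Equiv.Perm (List (Fin q)) × Equiv.Perm V) : Prop :=
  ∀ w, (p.1 w).length = w.length ∧ ∃ y, p.2 (Z.val w) = Z.val (p.1 w) + (2 ^ w.length : ℕ) • y

/-- The group of corresponding pairs. -/
def Dig.pairs : Subgroup (Equiv.Perm (List (Fin q)) × Equiv.Perm V) where
  carrier := {p | Fol Z p ∧ Cong p.2 ∧ Cong p.2⁻¹}
  one_mem' := by
    refine ⟨fun w => ⟨rfl, 0, by simp⟩, fun k x y => ⟨y, rfl⟩, fun k x y => ⟨y, rfl⟩⟩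
  mul_mem' := by
    rintro p p' ⟨h1, h2, h3⟩ ⟨h1', h2', h3'⟩
    refine ⟨fun w => ?_, fun k x y => ?_, fun k x y => ?_⟩
    · obtain ⟨ha, y, hy⟩ := h1' w
      obtain ⟨hb, y', hy'⟩ := h1 (p'.1 w)
      obtain ⟨z, hz⟩ := h2 w.length (Z.val (p'.1 w)) y
      refine ⟨hb.trans ha, y' + z, ?_⟩
      rw [Prod.snd_mul, Prod.fst_mul, Equiv.Perm.mul_apply, Equiv.Perm.mul_apply, hy, hz, hy',
        ha, smul_add, add_assoc]
    · obtain ⟨z, hz⟩ := h2' k x y
      obtain ⟨z', hz'⟩ := h2 k (p'.2 x) z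
      exact ⟨z', by rw [Prod.snd_mul, Equiv.Perm.mul_apply, hz, hz']; rfl⟩
    · obtain ⟨z, hz⟩ := h3 k x y
      obtain ⟨z', hz'⟩ := h3' k (p.2⁻¹ x) z
      exact ⟨z', by rw [Prod.snd_mul, mul_inv_rev, Equiv.Perm.mul_apply, hz, hz']; rfl⟩
  inv_mem' := by
    rintro p ⟨h1, h2, h3⟩
    refine ⟨fun w => ?_, h3, by rw [Prod.snd_inv, inv_inv]; exact h2⟩
    obtain ⟨ha, y, hy⟩ := h1 (p.1⁻¹ w)
    have e1 : p.1 (p.1⁻¹ w) = w := p.1.apply_symm_apply w
    rw [e1] at ha hy
    obtain ⟨z, hz⟩ := h3 w.length (Z.val w) y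
    refine ⟨ha.symm, -z, ?_⟩
    have e2 : p.2⁻¹ (p.2 (Z.val (p.1⁻¹ w))) = Z.val (p.1⁻¹ w) := p.2.symm_apply_apply _
    rw [ha] at hz
    rw [← hy, e2] at hz
    rw [Prod.snd_inv, Prod.fst_inv, hz, smul_neg, ha]
    abel

theorem Dig.fst_eq_one (g : Equiv.Perm (List (Fin q))) (h : (g, 1) ∈ Z.pairs) : g = 1 := by
  ext1 w
  obtain ⟨ha, y, hy⟩ := h.1 w
  exact (Z.val_inj w (g w) ha.symm y hy).symm

theorem Dig.snd_eq_one (f : Equiv.Perm V) (h : (1, f) ∈ Z.pairs) : f = 1 := by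
  ext1 x
  have key : f x - x = 0 := by
    apply Z.sep
    intro k
    obtain ⟨w, hw, y, hy⟩ := Z.ex_word k x
    obtain ⟨-, y', hy'⟩ := h.1 w
    obtain ⟨z, hz⟩ := h.2.1 k (Z.val w) y
    simp only at hy' hz
    refine ⟨y' + z - y, ?_⟩
    rw [hw] at hy'
    rw [hy, hz, hy', smul_sub, smul_add]
    simp only [Equiv.Perm.coe_one, id_eq]
    abel
  exact sub_eq_zero.1 key

/-- The affine map `x ↦ φ x + t`. -/
def aff (φ : (V ≃ₗ[ℤ] V)) (t : V) : Equiv.Perm V := φ.toEquiv.trans (Equiv.addRight t)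

@[simp] theorem aff_apply (φ : (V ≃ₗ[ℤ] V)) (t x : V) : aff φ t x = φ x + t := rfl

theorem aff_mul (φ ψ : (V ≃ₗ[ℤ] V)) (s t : V) : aff φ s * aff ψ t = aff (φ * ψ) (φ t + s) := by
  ext1 x
  simp [add_assoc]

theorem aff_one : aff (1 : (V ≃ₗ[ℤ] V)) 0 = 1 := by
  ext1 x
  simp

theorem aff_inv (φ : (V ≃ₗ[ℤ] V)) (t : V) : (aff φ t)⁻¹ = aff φ⁻¹ (-(φ⁻¹ t)) := by
  have h : φ (φ⁻¹ t) = t := φ.apply_symm_apply t
  rw [inv_eq_iff_mul_eq_one, aff_mul, map_neg, h, mul_inv_cancel, neg_add_cancel, aff_one]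

theorem cong_aff (φ : (V ≃ₗ[ℤ] V)) (t : V) : Cong (aff φ t) := by
  intro k x y
  refine ⟨φ y, ?_⟩
  simp only [aff_apply, map_add, map_nsmul]
  abel

/-- The data of an affine interpretation of the states of an automaton. -/
structure Interp (Z : Dig V q) {m : ℕ} (next : Fin m → Fin q → Fin m)
    (out : Fin m → Equiv.Perm (Fin q)) where
  φ : Fin m → (V ≃ₗ[ℤ] V)
  t : Fin m → V
  hφ : ∀ s r, φ (next s r) = φ s
  ht : ∀ s r, φ s (Z.δ r) + t s = Z.δ (out s r) + (2 : ℕ) • t (next s r)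

variable {Z} {m : ℕ} {next : Fin m → Fin q → Fin m} {out : Fin m → Equiv.Perm (Fin q)}

theorem Interp.fol (I : Interp Z next out) (s : Fin m) :
    Fol Z (actPerm next out s, aff (I.φ s) (I.t s)) := by
  intro w
  change (act next out s w).length = w.length ∧
    ∃ y, I.φ s (Z.val w) + I.t s = Z.val (act next out s w) + (2 ^ w.length : ℕ) • y
  induction w generalizing s with
  | nil => exact ⟨rfl, I.t s, by simp [act, Dig.val]⟩
  | cons r w ih =>
    obtain ⟨ha, y, hy⟩ := ih (next s r)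
    refine ⟨by simp [act, ha], y, ?_⟩
    rw [I.hφ] at hy
    rw [act, Dig.val, Dig.val, List.length_cons, map_add, map_nsmul, add_right_comm, I.ht,
      pow_succ', ← smul_smul, add_assoc, ← smul_add, add_comm (I.t (next s r)), hy, smul_add,
      add_assoc]

/-- The affine group of an interpretation. -/
def Interp.H (I : Interp Z next out) : Subgroup (Equiv.Perm V) :=
  Subgroup.closure (Set.range fun s => aff (I.φ s) (I.t s))

/-- The group of pairs generated by the states. -/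
def Interp.C (I : Interp Z next out) : Subgroup (Equiv.Perm (List (Fin q)) × Equiv.Perm V) :=
  Subgroup.closure (Set.range fun s => (actPerm next out s, aff (I.φ s) (I.t s)))

theorem Interp.C_le (I : Interp Z next out) : I.C ≤ Z.pairs := by
  rw [Interp.C, Subgroup.closure_le]
  rintro _ ⟨s, rfl⟩
  refine ⟨I.fol s, cong_aff _ _, ?_⟩
  change Cong (aff (I.φ s) (I.t s))⁻¹
  rw [aff_inv]
  exact cong_aff _ _

theorem Interp.map_fst (I : Interp Z next out) :
    I.C.map (MonoidHom.fst _ _) = selfSimilarGroup next out := by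
  rw [Interp.C, MonoidHom.map_closure, selfSimilarGroup, ← Set.range_comp]
  rfl

theorem Interp.map_snd (I : Interp Z next out) : I.C.map (MonoidHom.snd _ _) = I.H := by
  rw [Interp.C, MonoidHom.map_closure, Interp.H, ← Set.range_comp]
  rfl

/-- Automata with equal affine groups generate equal groups. -/
theorem Interp.group_le (I : Interp Z next out) {m' : ℕ} {next' : Fin m' → Fin q → Fin m'}
    {out' : Fin m' → Equiv.Perm (Fin q)} (I' : Interp Z next' out') (h : I.H ≤ I'.H) :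
    selfSimilarGroup next out ≤ selfSimilarGroup next' out' := by
  rw [← I.map_fst, ← I'.map_fst]
  rintro g ⟨⟨g', f⟩, hp, rfl⟩
  have hf : f ∈ I'.H := h (by rw [← I.map_snd]; exact ⟨_, hp, rfl⟩)
  rw [← I'.map_snd] at hf
  obtain ⟨⟨g'', f'⟩, hp', rfl⟩ := hf
  refine ⟨_, hp', ?_⟩
  have h1 : (g' * g''⁻¹, (1 : Equiv.Perm V)) ∈ Z.pairs := by
    have := mul_mem (I.C_le hp) (inv_mem (I'.C_le hp'))
    simpa using this
  exact (mul_inv_eq_one.1 (Z.fst_eq_one _ h1)).symm

theorem Interp.group_eq (I : Interp Z next out) {m' : ℕ} {next' : Fin m' → Fin q → Fin m'}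
    {out' : Fin m' → Equiv.Perm (Fin q)} (I' : Interp Z next' out') (h : I.H = I'.H) :
    selfSimilarGroup next out = selfSimilarGroup next' out' :=
  le_antisymm (I.group_le I' h.le) (I'.group_le I h.ge)

/-- An element of order two of the affine group gives one of the self-similar group. -/
theorem Interp.exists_involution (I : Interp Z next out) (f : Equiv.Perm V) (hf : f ∈ I.H)
    (h1 : f ≠ 1) (h2 : f * f = 1) : ∃ g ∈ selfSimilarGroup next out, g ≠ 1 ∧ g * g = 1 := by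
  rw [← I.map_snd] at hf
  obtain ⟨⟨g, f'⟩, hp, rfl⟩ := hf
  refine ⟨g, by rw [← I.map_fst]; exact ⟨_, hp, rfl⟩, ?_, ?_⟩
  · rintro rfl
    exact h1 (Z.snd_eq_one _ (I.C_le hp))
  · apply Z.fst_eq_one
    have := mul_mem (I.C_le hp) (I.C_le hp)
    rw [Prod.mk_mul_mk] at this
    change f' * f' = 1 at h2
    rwa [h2] at this

/-- If the affine group has no element of order two, then neither has the self-similar group. -/
theorem Interp.no_involution (I : Interp Z next out) (h : ∀ f ∈ I.H, f * f = 1 → f = 1) :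
    ∀ g ∈ selfSimilarGroup next out, g * g = 1 → g = 1 := by
  intro g hg hgg
  rw [← I.map_fst] at hg
  obtain ⟨⟨g', f⟩, hp, rfl⟩ := hg
  have h1 : f = 1 := by
    apply h f (by rw [← I.map_snd]; exact ⟨_, hp, rfl⟩)
    apply Z.snd_eq_one
    have := mul_mem (I.C_le hp) (I.C_le hp)
    rw [Prod.mk_mul_mk] at this
    change g' * g' = 1 at hgg
    rwa [hgg] at this
  subst h1
  exact Z.fst_eq_one _ (I.C_le hp)

end

end Pool.Agent.W7h60.Iso
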