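import Mathlib
import Pool.Agent.W7h60.Iso.Dig

set_option autoImplicit false

namespace Pool.Agent.W7h60.Iso

section

variable {V : Type} [AddCommGroup V] {q : ℕ} {Z : Dig V q}
variable {m : ℕ} {next : Fin m → Fin q → Fin m} {out : Fin m → Equiv.Perm (Fin q)}

/-- All affine maps with linear part in a given group. -/
def affGroup (Γ : Subgroup (V ≃ₗ[ℤ] V)) : Subgroup (Equiv.Perm V) where
  carrier := {f | ∃ φ ∈ Γ, ∃ t, f = aff φ t}
  one_mem' := ⟨1, one_mem _, 0, aff_one.symm⟩
  mul_mem' := by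
    rintro _ _ ⟨φ, hφ, t, rfl⟩ ⟨ψ, hψ, s, rfl⟩
    exact ⟨φ * ψ, mul_mem hφ hψ, _, aff_mul _ _ _ _⟩
  inv_mem' := by
    rintro _ ⟨φ, hφ, t, rfl⟩
    exact ⟨φ⁻¹, inv_mem hφ, _, aff_inv _ _⟩

theorem Interp.H_eq (I : Interp Z next out) (G : Set (V ≃ₗ[ℤ] V)) (T : Set V)
    (hT : AddSubgroup.closure T = ⊤) (hne : G.Nonempty) (hG : ∀ s, I.φ s ∈ G)
    (h0 : ∀ g ∈ G, ∃ s, I.φ s = g ∧ I.t s = 0)
    (h1 : ∀ g ∈ G, ∀ e ∈ T, ∃ s, I.φ s = g ∧ I.t s = e) :
    I.H = affGroup (Subgroup.closure G) := by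
  apply le_antisymm
  · rw [Interp.H, Subgroup.closure_le]
    rintro _ ⟨s, rfl⟩
    exact ⟨I.φ s, Subgroup.subset_closure (hG s), I.t s, rfl⟩
  · have hg : ∀ s, aff (I.φ s) (I.t s) ∈ I.H := fun s => Subgroup.subset_closure ⟨s, rfl⟩
    have hlin : ∀ φ ∈ Subgroup.closure G, aff φ 0 ∈ I.H := by
      intro φ hφ
      induction hφ using Subgroup.closure_induction with
      | mem x hx =>
        obtain ⟨s, hs1, hs2⟩ := h0 x hx
        rw [← hs1, ← hs2]
        exact hg s
      | one => rw [aff_one]; exact one_mem _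
      | mul x y _ _ hx hy =>
        have := mul_mem hx hy
        rw [aff_mul, map_zero, add_zero] at this
        exact this
      | inv x _ hx =>
        have := inv_mem hx
        rw [aff_inv, map_zero, neg_zero] at this
        exact this
    have htr : ∀ t : V, aff 1 t ∈ I.H := by
      intro t
      have ht : t ∈ AddSubgroup.closure T := by rw [hT]; trivial
      induction ht using AddSubgroup.closure_induction with
      | mem x hx =>
        obtain ⟨g, hgG⟩ := hne
        obtain ⟨s, hs1, hs2⟩ := h1 g hgG x hx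
        obtain ⟨s', hs1', hs2'⟩ := h0 g hgG
        have h2 := mul_mem (hg s) (inv_mem (hg s'))
        rw [hs1, hs2, hs1', hs2', aff_inv, map_zero, neg_zero, aff_mul, map_zero, zero_add,
          mul_inv_cancel] at h2
        exact h2
      | zero => rw [aff_one]; exact one_mem _
      | add x y _ _ hx hy =>
        have := mul_mem hx hy
        rw [aff_mul, one_mul] at this
        have e : (1 : V ≃ₗ[ℤ] V) y + x = x + y := by
          rw [add_comm]; rfl
        rw [e] at this
        exact this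
      | neg x _ hx =>
        have := inv_mem hx
        rw [aff_inv, inv_one] at this
        exact this
    rintro _ ⟨φ, hφ, t, rfl⟩
    have := mul_mem (htr t) (hlin φ hφ)
    rw [aff_mul, one_mul, map_zero, zero_add] at this
    exact this

theorem affGroup_no_involution (Z : Dig V q) (Γ : Subgroup (V ≃ₗ[ℤ] V))
    (h : ∀ φ ∈ Γ, φ * φ = 1 → φ = 1) : ∀ f ∈ affGroup Γ, f * f = 1 → f = 1 := by
  rintro _ ⟨φ, hφ, t, rfl⟩ hff
  have h0 : ∀ x, φ (φ x + t) + t = x := fun x => DFunLike.congr_fun hff x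
  have h1 : φ t + t = 0 := by
    have := h0 0
    rwa [map_zero, zero_add] at this
  have h2 : φ * φ = 1 := by
    ext x
    have := h0 x
    rw [map_add, add_assoc, h1, add_zero] at this
    exact this
  have h3 := h φ hφ h2
  subst h3
  have h4 : t = 0 := by
    apply Z.tf
    rw [two_nsmul, smul_zero]
    exact h1
  subst h4
  exact aff_one

end

end Pool.Agent.W7h60.Iso
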