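import Mathlib

set_option autoImplicit false

open scoped commutatorElement

namespace Pool.Agent.W7h60.Iso

section

variable {U : Type} [Group U]

/-- left multiplication on two copies -/
def f1 : U →* Equiv.Perm (U × Bool) where
  toFun u := (Equiv.mulLeft u).prodCongr (Equiv.refl Bool)
  map_one' := by ext ⟨g, s⟩ <;> simp
  map_mul' u v := by ext ⟨g, s⟩ <;> simp [mul_assoc]

open Classical in
/-- a transposition -/
noncomputable def b1 (U : Type) [Group U] : Equiv.Perm (U × Bool) :=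
  Equiv.swap (1, false) (1, true)

open Classical in
theorem w1_eq (w : U) :
    ⁅f1 w, b1 U⁆ = Equiv.swap (w, false) (w, true) * Equiv.swap (1, false) (1, true) := by
  rw [commutatorElement_def]
  have h : f1 w * b1 U * (f1 w)⁻¹ = Equiv.swap (w, false) (w, true) := by
    rw [b1, Equiv.mul_swap_eq_swap_mul, mul_inv_cancel_right]
    simp [f1]
  rw [h, b1, Equiv.swap_inv]

theorem w1_ne (w : U) (hw : w ≠ 1) : ⁅f1 w, b1 U⁆ ≠ 1 := by
  classical
  intro h
  rw [w1_eq] at h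
  have h1 := DFunLike.congr_fun h ((1 : U), false)
  rw [Equiv.Perm.mul_apply, Equiv.swap_apply_left, Equiv.swap_apply_of_ne_of_ne] at h1
  · simp at h1
  · simp
  · simp [hw.symm]

theorem w1_sq (w : U) (hw : w ≠ 1) : ⁅f1 w, b1 U⁆ * ⁅f1 w, b1 U⁆ = 1 := by
  classical
  rw [w1_eq]
  have hd : Equiv.Perm.Disjoint (Equiv.swap (w, false) (w, true))
      (Equiv.swap ((1 : U), false) (1, true)) := by
    rintro ⟨x, s⟩
    by_cases hx : x = w
    · right
      apply Equiv.swap_apply_of_ne_of_ne <;> simp [hx, hw]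
    · left
      apply Equiv.swap_apply_of_ne_of_ne <;> simp [hx]
  rw [mul_assoc, ← mul_assoc (Equiv.swap ((1 : U), false) (1, true)), ← hd.commute.eq, mul_assoc,
    Equiv.swap_mul_self, mul_one, Equiv.swap_mul_self]

/-- A sign change which anticommutes with an involution of a group. -/
theorem exists_sign {P : Type} [Group P] (w : P) (hw : w ≠ 1) (hww : w * w = 1) :
    ∃ σ : P → Bool, ∀ p, σ (w * p) = !(σ p) := by
  classical
  let r : Setoid P :=
    { r := fun p q => q = p ∨ q = w * p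
      iseqv :=
        { refl := fun p => Or.inl rfl
          symm := by
            rintro p q (rfl | rfl)
            · exact Or.inl rfl
            · exact Or.inr (by rw [← mul_assoc, hww, one_mul])
          trans := by
            rintro p q s (rfl | rfl) (rfl | rfl)
            · exact Or.inl rfl
            · exact Or.inr rfl
            · exact Or.inr rfl
            · exact Or.inl (by rw [← mul_assoc, hww, one_mul]) } }
  refine ⟨fun p => decide ((Quotient.mk r p).out = p), fun p => ?_⟩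
  have h1 : Quotient.mk r (w * p) = Quotient.mk r p := Quotient.sound (r.symm (Or.inr rfl))
  have h2 : w * p ≠ p := fun h => hw (by simpa using h)
  have h3 : r.r ((Quotient.mk r p).out) p := Quotient.exact (Quotient.out_eq _)
  change decide ((Quotient.mk r (w * p)).out = w * p) = !decide ((Quotient.mk r p).out = p)
  rw [h1]
  rcases h3 with h3 | h3
  · rw [← h3]
    simp [h2.symm]
  · have h4 : (Quotient.mk r p).out = w * p := by
      rw [h3, ← mul_assoc, hww, one_mul, ← h3]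
    rw [h4]
    simp [h2]

/-- The twisted model: in some group which receives `U`, the double commutator of a nontrivial
element `w` is a nontrivial involution commuting with everything. -/
theorem exists_twist (w : U) (hw : w ≠ 1) : ∃ (E : Type) (_ : Group E) (f : U →* E) (b τ : E),
    ⁅⁅f w, b⁆, τ⁆ ≠ 1 ∧ ⁅⁅f w, b⁆, τ⁆ * ⁅⁅f w, b⁆, τ⁆ = 1 ∧
    (∀ u, ⁅⁅f w, b⁆, τ⁆ * f u = f u * ⁅⁅f w, b⁆, τ⁆) ∧
    ⁅⁅f w, b⁆, τ⁆ * b = b * ⁅⁅f w, b⁆, τ⁆ ∧ ⁅⁅f w, b⁆, τ⁆ * τ = τ * ⁅⁅f w, b⁆, τ⁆ := by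
  classical
  let P := Equiv.Perm (U × Bool)
  obtain ⟨σ, hσ⟩ := exists_sign (P := P) ⁅f1 w, b1 U⁆ (w1_ne w hw) (w1_sq w hw)
  let L : P →* Equiv.Perm (P × Bool) := f1
  let τ : Equiv.Perm (P × Bool) :=
    { toFun := fun x => (x.1, xor x.2 (σ x.1))
      invFun := fun x => (x.1, xor x.2 (σ x.1))
      left_inv := by rintro ⟨p, s⟩; simp
      right_inv := by rintro ⟨p, s⟩; simp }
  let z : Equiv.Perm (P × Bool) :=
    { toFun := fun x => (x.1, !x.2)
      invFun := fun x => (x.1, !x.2)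
      left_inv := by rintro ⟨p, s⟩; simp
      right_inv := by rintro ⟨p, s⟩; simp }
  have hz : ⁅⁅L (f1 w), L (b1 U)⁆, τ⁆ = z := by
    have e : ⁅L (f1 w), L (b1 U)⁆ = L ⁅f1 w, b1 U⁆ := (map_commutatorElement L _ _).symm
    rw [e, commutatorElement_def, ← map_inv]
    have hi : (⁅f1 w, b1 U⁆ : P)⁻¹ = ⁅f1 w, b1 U⁆ := inv_eq_of_mul_eq_one_left (w1_sq w hw)
    rw [hi]
    ext1 ⟨p, s⟩
    have e1 : ∀ x : P × Bool, τ⁻¹ x = (x.1, xor x.2 (σ x.1)) := fun _ => rfl
    have e2 : ∀ x : P × Bool, τ x = (x.1, xor x.2 (σ x.1)) := fun _ => rfl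
    have e3 : ∀ (g : P) (x : P × Bool), L g x = (g * x.1, x.2) := fun _ _ => rfl
    have e4 : ∀ x : P × Bool, z x = (x.1, !x.2) := fun _ => rfl
    simp only [Equiv.Perm.mul_apply, e1, e2, e3, e4, hσ, ← mul_assoc, w1_sq w hw, one_mul]
    cases σ p <;> cases s <;> rfl
  have hL : ∀ g : P, z * L g = L g * z := by
    intro g; ext1 ⟨p, s⟩; rfl
  have hτ : z * τ = τ * z := by
    ext1 ⟨p, s⟩
    change (p, !(xor s (σ p))) = (p, xor (!s) (σ p))
    cases s <;> simp
  refine ⟨Equiv.Perm (P × Bool), inferInstance, L.comp f1, L (b1 U), τ, ?_⟩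
  change ⁅⁅L (f1 w), L (b1 U)⁆, τ⁆ ≠ 1 ∧ ⁅⁅L (f1 w), L (b1 U)⁆, τ⁆ * ⁅⁅L (f1 w), L (b1 U)⁆, τ⁆ = 1 ∧
    (∀ u, ⁅⁅L (f1 w), L (b1 U)⁆, τ⁆ * L (f1 u) = L (f1 u) * ⁅⁅L (f1 w), L (b1 U)⁆, τ⁆) ∧
    ⁅⁅L (f1 w), L (b1 U)⁆, τ⁆ * L (b1 U) = L (b1 U) * ⁅⁅L (f1 w), L (b1 U)⁆, τ⁆ ∧
    ⁅⁅L (f1 w), L (b1 U)⁆, τ⁆ * τ = τ * ⁅⁅L (f1 w), L (b1 U)⁆, τ⁆
  rw [hz]
  refine ⟨?_, ?_, fun u => hL _, hL _, hτ⟩
  · intro h
    have := DFunLike.congr_fun h ((1 : P), false)
    change ((1 : P), true) = ((1 : P), false) at this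
    simp at this
  · ext1 ⟨p, s⟩
    change (p, !!s) = (p, s)
    simp

end

end Pool.Agent.W7h60.Iso
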