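import Mathlib
import Pool.Agent.W7h60.Iso.EL

set_option autoImplicit false

open scoped commutatorElement

namespace Pool.Agent.W7h60.Iso

section

variable {X : Type}

/-- The product of the letters of a word, the letters being free generators. -/
def Pos (w : List (X × Bool)) : FreeGroup (X × Bool) := (w.map FreeGroup.of).prod

/-- The kernel of the presentation by positive relators. -/
def Ker (RW : Set (List (X × Bool))) : Subgroup (FreeGroup (X × Bool)) :=
  Subgroup.normalClosure (Pos '' RW)

instance (RW : Set (List (X × Bool))) : (Ker RW).Normal := Subgroup.normalClosure_normal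

/-- The ambient group. -/
abbrev G3 (X : Type) : Type := FreeGroup (X × Bool) × FreeGroup (X × Bool) × ℤˣ

/-- The fixed generators. -/
def base (RW : Set (List (X × Bool))) : Set (G3 X) :=
  Set.range (fun c : X × Bool => (FreeGroup.of c, FreeGroup.of c, (1 : ℤˣ))) ∪
    (fun v => (Pos v, 1, 1)) '' RW

theorem diag_base (RW : Set (List (X × Bool))) (g : FreeGroup (X × Bool)) :
    (g, g, (1 : ℤˣ)) ∈ Subgroup.closure (base RW) := by
  induction g using FreeGroup.induction_on with
  | C1 => exact one_mem _
  | of i => exact Subgroup.subset_closure (Or.inl ⟨i, rfl⟩)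
  | inv_of i h => exact inv_mem h
  | mul x y hx hy => exact mul_mem hx hy

theorem ker_base (RW : Set (List (X × Bool))) (g : FreeGroup (X × Bool)) (hg : g ∈ Ker RW) :
    (g, 1, (1 : ℤˣ)) ∈ Subgroup.closure (base RW) := by
  let K : Subgroup (FreeGroup (X × Bool)) :=
    (Subgroup.closure (base RW)).comap (MonoidHom.inl (FreeGroup (X × Bool)) _)
  have hK : K.Normal := by
    refine ⟨fun n hn g => ?_⟩
    have h1 : (g * n * g⁻¹, (1 : FreeGroup (X × Bool)), (1 : ℤˣ)) =
        (g, g, 1) * (n, 1, 1) * (g, g, 1)⁻¹ := by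
      simp
    change (g * n * g⁻¹, (1 : FreeGroup (X × Bool)), (1 : ℤˣ)) ∈ Subgroup.closure (base RW)
    rw [h1]
    exact mul_mem (mul_mem (diag_base RW g) hn) (inv_mem (diag_base RW g))
  have hle : Ker RW ≤ K := by
    apply Subgroup.normalClosure_le_normal
    rintro _ ⟨v, hv, rfl⟩
    exact Subgroup.subset_closure (Or.inr ⟨v, hv, rfl⟩)
  exact hle hg

/-- The subgroup of an instance. -/
def Gam (RW : Set (List (X × Bool))) (w : List (X × Bool)) : Subgroup (G3 X) :=
  Subgroup.closure (insert (Pos w, 1, -1) (base RW))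

/-- The subgroup for positive instances. -/
def Gam0 (RW : Set (List (X × Bool))) : Subgroup (G3 X) :=
  Subgroup.closure (insert (1, 1, -1) (base RW))

theorem Gam_eq (RW : Set (List (X × Bool))) (w : List (X × Bool)) (h : Pos w ∈ Ker RW) :
    Gam RW w = Gam0 RW := by
  have hb : Subgroup.closure (base RW) ≤ Gam RW w :=
    Subgroup.closure_mono (Set.subset_insert _ _)
  have hb0 : Subgroup.closure (base RW) ≤ Gam0 RW :=
    Subgroup.closure_mono (Set.subset_insert _ _)
  have hk := ker_base RW _ h
  apply le_antisymm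
  · rw [Gam, Subgroup.closure_le, Set.insert_subset_iff]
    refine ⟨?_, Set.Subset.trans Subgroup.subset_closure hb0⟩
    have e : ((Pos w, 1, -1) : G3 X) = (Pos w, 1, 1) * (1, 1, -1) := by simp
    rw [e]
    exact mul_mem (hb0 hk) (Subgroup.subset_closure (Set.mem_insert _ _))
  · rw [Gam0, Subgroup.closure_le, Set.insert_subset_iff]
    refine ⟨?_, Set.Subset.trans Subgroup.subset_closure hb⟩
    have e : ((1, 1, -1) : G3 X) = (Pos w, 1, 1)⁻¹ * (Pos w, 1, -1) := by simp
    rw [e]
    exact mul_mem (inv_mem (hb hk)) (Subgroup.subset_closure (Set.mem_insert _ _))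

theorem not_mem_Gam (RW : Set (List (X × Bool))) (w : List (X × Bool)) {E : Type} [Group E]
    (ε : FreeGroup (X × Bool) →* E) (hε : ∀ v ∈ RW, ε (Pos v) = 1)
    (h1 : ε (Pos w) ≠ 1) (h2 : ε (Pos w) * ε (Pos w) = 1)
    (h3 : ∀ u, ε (Pos w) * ε u = ε u * ε (Pos w)) : ((1, 1, -1) : G3 X) ∉ Gam RW w := by
  intro hmem
  set z := ε (Pos w) with hz
  have key : ∀ p ∈ Gam RW w, (p.2.2 = 1 ∧ ε p.1 = ε p.2.1) ∨
      (p.2.2 = -1 ∧ ε p.1 = z * ε p.2.1) := by
    intro p hp
    induction hp using Subgroup.closure_induction with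
    | mem x hx =>
      rcases hx with rfl | ⟨c, rfl⟩ | ⟨v, hv, rfl⟩
      · right; simp [hz]
      · left; simp
      · left; simp [hε v hv]
    | one => left; simp
    | mul x y _ _ hx hy =>
      simp only [Prod.snd_mul, Prod.fst_mul, map_mul]
      rcases hx with ⟨a, b⟩ | ⟨a, b⟩ <;> rcases hy with ⟨a', b'⟩ | ⟨a', b'⟩
      · left; rw [a, a', b, b']; simp
      · right; rw [a, a', b, b']
        refine ⟨by simp, ?_⟩
        rw [← mul_assoc, ← h3, mul_assoc]
      · right; rw [a, a', b, b']
        refine ⟨by simp, ?_⟩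
        rw [mul_assoc]
      · left; rw [a, a', b, b']
        refine ⟨by simp, ?_⟩
        rw [mul_assoc, ← mul_assoc (ε x.2.1), ← h3, ← mul_assoc, ← mul_assoc, h2, one_mul]
    | inv x _ hx =>
      simp only [Prod.snd_inv, Prod.fst_inv, map_inv]
      rcases hx with ⟨a, b⟩ | ⟨a, b⟩
      · left; rw [a, b]; simp
      · right; rw [a, b]
        refine ⟨by simp, ?_⟩
        have hzi : z⁻¹ = z := inv_eq_of_mul_eq_one_left h2
        have h4 := h3 (x.2.1)⁻¹
        rw [map_inv] at h4
        rw [mul_inv_rev, hzi, h4]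
  rcases key _ hmem with ⟨a, -⟩ | ⟨-, b⟩
  · have ha : (-1 : ℤˣ) = 1 := a
    exact absurd ha (by decide)
  · simp only [map_one, mul_one] at b
    exact h1 b.symm

/-- The homomorphism induced on the free group on positive letters. -/
def lif {E : Type} [Group E] (ε : FreeGroup X →* E) : FreeGroup (X × Bool) →* E :=
  FreeGroup.lift (fun c => cond c.2 (ε (FreeGroup.of c.1)) (ε (FreeGroup.of c.1))⁻¹)

theorem lif_Pos {E : Type} [Group E] (ε : FreeGroup X →* E) (w : List (X × Bool)) :
    lif ε (Pos w) = ε (FreeGroup.mk w) := by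
  have h : ε = FreeGroup.lift (fun x => ε (FreeGroup.of x)) := by
    ext x; simp
  conv_rhs => rw [h, FreeGroup.lift_mk]
  rw [Pos, map_list_prod, List.map_map]
  congr 1
  apply List.map_congr_left
  intro c _
  simp [lif]

/-- Words over the enlarged set of generators: the relators. -/
def embW {A : Type} (w : List (A × Bool)) : List (Option (Option A) × Bool) :=
  w.map (fun p => (some (some p.1), p.2))

theorem mk_embW {A : Type} (w : List (A × Bool)) :
    FreeGroup.mk (embW w) = FreeGroup.map (fun a => some (some a)) (FreeGroup.mk w) := by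
  rw [FreeGroup.map.mk, embW]

/-- inverse word -/
def invW {A : Type} (w : List (A × Bool)) : List (A × Bool) :=
  (w.map (fun p => (p.1, !p.2))).reverse

theorem mk_invW {A : Type} (w : List (A × Bool)) :
    FreeGroup.mk (invW w) = (FreeGroup.mk w)⁻¹ := by
  rw [FreeGroup.inv_mk]
  rfl

/-- The word for an instance. -/
def hatW {A : Type} (w : List (A × Bool)) : List (Option (Option A) × Bool) :=
  let a := embW w ++ [(some none, true)] ++ invW (embW w) ++ [(some none, false)]
  a ++ [(none, true)] ++ invW a ++ [(none, false)]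

theorem mk_hatW {A : Type} (w : List (A × Bool)) :
    FreeGroup.mk (hatW w) = ⁅⁅FreeGroup.map (fun a : A => some (some a)) (FreeGroup.mk w),
      FreeGroup.of (some (none : Option A))⁆, FreeGroup.of (none : Option (Option A))⁆ := by
  simp only [hatW, ← FreeGroup.mul_mk, mk_invW, mk_embW, commutatorElement_def]
  have h1 : ∀ x : Option (Option A), FreeGroup.mk [(x, false)] = (FreeGroup.of x)⁻¹ := by
    intro x; rfl
  have h2 : ∀ x : Option (Option A), FreeGroup.mk [(x, true)] = FreeGroup.of x := by
    intro x; rfl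
  rw [h1, h2, h1, h2]

/-- The relators of the enlarged presentation. -/
def relW {A : Type} (R : Set (FreeGroup A)) [DecidableEq A] :
    Set (List (Option (Option A) × Bool)) :=
  Set.range (fun x => [(x, true), (x, false)]) ∪ (fun r => embW r.toWord) '' R

theorem hat_mem {A : Type} [DecidableEq A] (R : Set (FreeGroup A)) (w : List (A × Bool))
    (h : FreeGroup.mk w ∈ Subgroup.normalClosure R) : Pos (hatW w) ∈ Ker (relW R) := by
  let θ : FreeGroup (Option (Option A)) →* FreeGroup (Option (Option A) × Bool) ⧸ Ker (relW R) :=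
    FreeGroup.lift (fun x => QuotientGroup.mk' _ (FreeGroup.of (x, true)))
  have hθ : ∀ v, θ (FreeGroup.mk v) = QuotientGroup.mk' _ (Pos v) := by
    intro v
    rw [FreeGroup.lift_mk, Pos, map_list_prod, List.map_map]
    congr 1
    apply List.map_congr_left
    rintro ⟨x, b⟩ _
    cases b
    · change (QuotientGroup.mk' (Ker (relW R)) (FreeGroup.of (x, true)))⁻¹ =
        QuotientGroup.mk' (Ker (relW R)) (FreeGroup.of (x, false))
      rw [inv_eq_iff_mul_eq_one, ← map_mul]
      refine (QuotientGroup.eq_one_iff _).2 ?_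
      apply Subgroup.subset_normalClosure
      exact ⟨[(x, true), (x, false)], Or.inl ⟨x, rfl⟩, by simp [Pos]⟩
    · rfl
  have h1 : θ (FreeGroup.map (fun a => some (some a)) (FreeGroup.mk w)) = 1 := by
    have hle : Subgroup.normalClosure R ≤
        (θ.comp (FreeGroup.map (fun a => some (some a)))).ker := by
      apply Subgroup.normalClosure_le_normal
      intro r hr
      change θ (FreeGroup.map (fun a => some (some a)) r) = 1
      rw [← FreeGroup.mk_toWord (x := r), ← mk_embW, hθ]
      refine (QuotientGroup.eq_one_iff _).2 ?_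
      apply Subgroup.subset_normalClosure
      exact ⟨embW r.toWord, Or.inr ⟨r, hr, rfl⟩, rfl⟩
    exact hle h
  have h2 : QuotientGroup.mk' (Ker (relW R)) (Pos (hatW w)) = 1 := by
    rw [← hθ, mk_hatW, map_commutatorElement, map_commutatorElement, h1]
    simp
  exact (QuotientGroup.eq_one_iff _).1 h2

theorem hat_not_mem {A : Type} [DecidableEq A] (R : Set (FreeGroup A)) (w : List (A × Bool))
    (h : FreeGroup.mk w ∉ Subgroup.normalClosure R) :
    ((1, 1, -1) : G3 (Option (Option A))) ∉ Gam (relW R) (hatW w) := by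
  have hw : (QuotientGroup.mk' (Subgroup.normalClosure R) (FreeGroup.mk w)) ≠ 1 := by
    intro h1
    exact h ((QuotientGroup.eq_one_iff _).1 h1)
  obtain ⟨E, _, f, b, τ, h1, h2, h3, h4, h5⟩ := exists_twist _ hw
  let ε : FreeGroup (Option (Option A)) →* E := FreeGroup.lift (fun x => match x with
    | none => τ
    | some none => b
    | some (some a) => f (QuotientGroup.mk' _ (FreeGroup.of a)))
  have hεm : ∀ u, ε (FreeGroup.map (fun a => some (some a)) u) = f (QuotientGroup.mk' _ u) := by
    intro u
    have : ε.comp (FreeGroup.map (fun a => some (some a))) =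
        f.comp (QuotientGroup.mk' (Subgroup.normalClosure R)) := by
      ext a; simp [ε]
    exact DFunLike.congr_fun this u
  have hz : lif ε (Pos (hatW w)) =
      ⁅⁅f (QuotientGroup.mk' (Subgroup.normalClosure R) (FreeGroup.mk w)), b⁆, τ⁆ := by
    rw [lif_Pos, mk_hatW, map_commutatorElement, map_commutatorElement, hεm]
    simp [ε]
  apply not_mem_Gam (relW R) (hatW w) (lif ε)
  · rintro v (⟨x, rfl⟩ | ⟨r, hr, rfl⟩)
    · simp [Pos, lif]
    · change lif ε (Pos (embW r.toWord)) = 1
      rw [lif_Pos, mk_embW, hεm, FreeGroup.mk_toWord]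
      have : QuotientGroup.mk' (Subgroup.normalClosure R) r = 1 :=
        (QuotientGroup.eq_one_iff _).2 (Subgroup.subset_normalClosure hr)
      rw [this, map_one]
  · rw [hz]; exact h1
  · rw [hz]; exact h2
  · rw [hz]
    intro u
    induction u using FreeGroup.induction_on with
    | C1 => simp
    | of c =>
      obtain ⟨x, s⟩ := c
      have hx : Commute ⁅⁅f (QuotientGroup.mk' (Subgroup.normalClosure R) (FreeGroup.mk w)), b⁆, τ⁆
          (ε (FreeGroup.of x)) := by
        rcases x with _ | _ | a
        · simp only [ε, FreeGroup.lift_apply_of]; exact h5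
        · simp only [ε, FreeGroup.lift_apply_of]; exact h4
        · simp only [ε, FreeGroup.lift_apply_of]; exact h3 _
      cases s
      · simp only [lif, FreeGroup.lift_apply_of, cond_false]
        exact hx.inv_right
      · simp only [lif, FreeGroup.lift_apply_of, cond_true]
        exact hx
    | inv_of c hc =>
      rw [map_inv]
      exact (Commute.inv_right hc : Commute _ _)
    | mul x y hx hy =>
      rw [map_mul]
      exact (Commute.mul_right hx hy : Commute _ _)

end

end Pool.Agent.W7h60.Iso
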