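import Mathlib

set_option autoImplicit false

namespace Pool.Agent.W7h60.Iso

/-- Automorphisms of the free abelian group of rank two. -/
abbrev GL2 : Type := (ℤ × ℤ) ≃ₗ[ℤ] (ℤ × ℤ)

/-- The linear map with matrix `[[c, c^2 - 1], [1, c]]`. -/
def gE (c : ℤ) : GL2 where
  toFun x := (c * x.1 + (c * c - 1) * x.2, x.1 + c * x.2)
  invFun x := (c * x.1 - (c * c - 1) * x.2, -x.1 + c * x.2)
  map_add' x y := by ext <;> simp <;> ring
  map_smul' a x := by ext <;> simp <;> ring
  left_inv x := by ext <;> simp <;> ring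
  right_inv x := by ext <;> simp <;> ring

/-- nonzero vectors -/
abbrev NZ : Type := {x : ℤ × ℤ // x ≠ 0}

instance : MulAction GL2 NZ where
  smul g x := ⟨g x.1, fun h => x.2 (by simpa using h)⟩
  one_smul x := rfl
  mul_smul g h x := rfl

theorem smul_val (g : GL2) (x : NZ) : (g • x).1 = g x.1 := rfl

/-- attracting set -/
def XX (c : ℤ) : Set NZ := {x | |x.1.1 - c * x.1.2| ≤ |x.1.2|}

theorem disj {c d : ℤ} (h : 3 ≤ |c - d|) : Disjoint (XX c) (XX d) := by
  rw [Set.disjoint_left]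
  rintro ⟨⟨x, y⟩, hx⟩ h1 h2
  simp only [XX, Set.mem_ofPred_eq] at h1 h2
  apply hx
  have h3 : |(c - d) * y| ≤ 2 * |y| := by
    have : (c - d) * y = (x - d * y) - (x - c * y) := by ring
    rw [this]
    calc |(x - d * y) - (x - c * y)| ≤ |x - d * y| + |x - c * y| := abs_sub _ _
      _ ≤ 2 * |y| := by linarith
  rw [abs_mul] at h3
  have hy : |y| = 0 := by
    by_contra hne
    have hpos : 0 < |y| := lt_of_le_of_ne (abs_nonneg y) (Ne.symm hne)
    nlinarith
  have hy0 : y = 0 := abs_eq_zero.1 hy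
  subst hy0
  simp only [mul_zero, sub_zero, abs_zero] at h1
  have hx0 : x = 0 := abs_eq_zero.1 (le_antisymm h1 (abs_nonneg x))
  subst hx0
  rfl

theorem gE_maps (c : ℤ) (x : NZ) (hx : x ∉ XX (-c)) : gE c • x ∈ XX c := by
  obtain ⟨⟨x, y⟩, h0⟩ := x
  simp only [XX, Set.mem_ofPred_eq, not_le] at hx ⊢
  rw [smul_val]
  change |(c * x + (c * c - 1) * y) - c * (x + c * y)| ≤ |x + c * y|
  have e1 : (c * x + (c * c - 1) * y) - c * (x + c * y) = -y := by ring
  have e2 : x - -c * y = x + c * y := by ring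
  rw [e1, abs_neg]
  rw [e2] at hx
  exact hx.le

theorem gE_inv_maps (c : ℤ) (x : NZ) (hx : x ∉ XX c) : (gE c)⁻¹ • x ∈ XX (-c) := by
  obtain ⟨⟨x, y⟩, h0⟩ := x
  simp only [XX, Set.mem_ofPred_eq, not_le] at hx ⊢
  rw [smul_val]
  change |(c * x - (c * c - 1) * y) - -c * (-x + c * y)| ≤ |-x + c * y|
  have e1 : (c * x - (c * c - 1) * y) - -c * (-x + c * y) = y := by ring
  have e2 : -x + c * y = -(x - c * y) := by ring
  rw [e1, e2, abs_neg]
  exact hx.le

/-- The embedding of a free group of countable rank. -/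
theorem gE_injective : Function.Injective
    (FreeGroup.lift (fun i : ℕ => gE (3 * ((i : ℤ) + 1)))) := by
  apply FreeGroup.injective_lift_of_ping_pong (fun i : ℕ => gE (3 * ((i : ℤ) + 1)))
    (fun i => XX (3 * ((i : ℤ) + 1))) (fun i => XX (-(3 * ((i : ℤ) + 1))))
  · intro i
    refine ⟨⟨(3 * ((i : ℤ) + 1), 1), by simp⟩, ?_⟩
    simp [XX]
  · intro i j hij
    apply disj
    rw [← mul_sub, abs_mul]
    have : 1 ≤ |(i : ℤ) + 1 - ((j : ℤ) + 1)| := by
      apply Int.one_le_abs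
      intro h
      apply hij
      omega
    simp only [Nat.abs_ofNat]
    linarith
  · intro i j hij
    apply disj
    have : 1 ≤ |(i : ℤ) + 1 - ((j : ℤ) + 1)| := by
      apply Int.one_le_abs
      intro h
      apply hij
      omega
    have e : -(3 * ((i : ℤ) + 1)) - -(3 * ((j : ℤ) + 1)) = -(3 * ((i : ℤ) + 1 - ((j : ℤ) + 1))) := by
      ring
    rw [e, abs_neg, abs_mul]
    simp only [Nat.abs_ofNat]
    linarith
  · intro i j
    apply disj
    have e : 3 * ((i : ℤ) + 1) - -(3 * ((j : ℤ) + 1)) = 3 * ((i : ℤ) + j + 2) := by ring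
    rw [e, abs_of_nonneg (by positivity)]
    have : (0 : ℤ) ≤ i := Int.natCast_nonneg i
    have : (0 : ℤ) ≤ j := Int.natCast_nonneg j
    linarith
  · rintro i _ ⟨x, hx, rfl⟩
    exact gE_maps _ x hx
  · rintro i _ ⟨x, hx, rfl⟩
    exact gE_inv_maps _ x hx

end Pool.Agent.W7h60.Iso
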