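import Mathlib
import Pool.Agent.W7h60.Iso.AffG
import Pool.Agent.W7h60.Iso.Grp
import Pool.Agent.W7h60.Iso.PP

set_option autoImplicit false

namespace Pool.Agent.W7h60.Iso

/-- The free abelian group of rank six. -/
abbrev V6 : Type := (ℤ × ℤ) × (ℤ × ℤ) × (ℤ × ℤ)

/-- Triples of naturals pairs. -/
abbrev Vec : Type := (ℕ × ℕ) × (ℕ × ℕ) × (ℕ × ℕ)

/-- Matrices with natural entries. -/
abbrev Blk : Type := ℕ × ℕ × ℕ × ℕ

/-- Triples of matrices with natural entries. -/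
abbrev Mat3 : Type := Blk × Blk × Blk

/-- cast -/
def cast2 (v : ℕ × ℕ) : ℤ × ℤ := ((v.1 : ℤ), (v.2 : ℤ))

/-- cast -/
def cast6 (v : Vec) : V6 := (cast2 v.1, cast2 v.2.1, cast2 v.2.2)

/-- The digits of a letter. -/
def dg (r : ℕ) : Vec := ((r % 2, r / 2 % 2), (r / 4 % 2, r / 8 % 2), (r / 16 % 2, r / 32 % 2))

/-- The letter with given digits. -/
def undg (v : Vec) : ℕ :=
  v.1.1 + 2 * v.1.2 + 4 * v.2.1.1 + 8 * v.2.1.2 + 16 * v.2.2.1 + 32 * v.2.2.2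

/-- parities -/
def par1 (v : ℕ × ℕ) : ℕ × ℕ := (v.1 % 2, v.2 % 2)

/-- parities -/
def parV (v : Vec) : Vec := (par1 v.1, par1 v.2.1, par1 v.2.2)

/-- halves -/
def half1 (v : ℕ × ℕ) : ℕ × ℕ := (v.1 / 2, v.2 / 2)

/-- halves -/
def halfV (v : Vec) : Vec := (half1 v.1, half1 v.2.1, half1 v.2.2)

/-- affine map -/
def ap1 (b : Blk) (v r : ℕ × ℕ) : ℕ × ℕ :=
  (b.1 * r.1 + b.2.1 * r.2 + v.1, b.2.2.1 * r.1 + b.2.2.2 * r.2 + v.2)

/-- affine map -/
def apV (g : Mat3) (v r : Vec) : Vec := (ap1 g.1 v.1 r.1, ap1 g.2.1 v.2.1 r.2.1, ap1 g.2.2 v.2.2 r.2.2)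

theorem undg_parV_lt (v : Vec) : undg (parV v) < 64 := by
  simp only [undg, parV, par1]
  omega

theorem dg_undg_parV (v : Vec) : dg (undg (parV v)) = parV v := by
  obtain ⟨⟨a, b⟩, ⟨c, d⟩, ⟨e, f⟩⟩ := v
  simp only [undg, parV, par1, dg, Prod.mk.injEq]
  omega

theorem cast2_par_half (v : ℕ × ℕ) : cast2 v = cast2 (par1 v) + (2 : ℕ) • cast2 (half1 v) := by
  obtain ⟨a, b⟩ := v
  simp only [cast2, par1, half1, Prod.mk_add_mk, Prod.smul_mk, Prod.mk.injEq, nsmul_eq_mul,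
    Nat.cast_ofNat]
  omega

theorem cast6_par_half (v : Vec) : cast6 v = cast6 (parV v) + (2 : ℕ) • cast6 (halfV v) := by
  obtain ⟨a, b, c⟩ := v
  simp only [cast6, parV, halfV, Prod.mk_add_mk, Prod.smul_mk, Prod.mk.injEq]
  exact ⟨cast2_par_half a, cast2_par_half b, cast2_par_half c⟩

theorem int_sep (x : ℤ) (h : ∀ k : ℕ, ∃ y : ℤ, x = 2 ^ k * y) : x = 0 := by
  obtain ⟨y, hy⟩ := h x.natAbs
  by_contra hne
  have h1 : (2 : ℤ) ^ x.natAbs ∣ x := ⟨y, hy⟩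
  have h2 : 2 ^ x.natAbs ≤ x.natAbs := by
    have := Int.natAbs_dvd_natAbs.2 h1
    rw [Int.natAbs_pow] at this
    exact Nat.le_of_dvd (Int.natAbs_pos.2 hne) this
  exact absurd h2 (not_le.2 Nat.lt_two_pow_self)

/-- The binary number system on `V6` with 64 digits. -/
def Z6 : Dig V6 64 where
  δ r := cast6 (dg r)
  ex := by
    rintro ⟨⟨a, b⟩, ⟨c, d⟩, ⟨e, f⟩⟩
    have hlt : (a % 2 + 2 * (b % 2) + 4 * (c % 2) + 8 * (d % 2) + 16 * (e % 2) + 32 * (f % 2)).toNat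
        < 64 := by omega
    refine ⟨⟨_, hlt⟩, ((a / 2, b / 2), (c / 2, d / 2), (e / 2, f / 2)), ?_⟩
    simp only [cast6, cast2, dg, Prod.mk_add_mk, Prod.smul_mk, Prod.mk.injEq, nsmul_eq_mul,
      Nat.cast_ofNat]
    omega
  uniq := by
    rintro ⟨r, hr⟩ ⟨r', hr'⟩ ⟨⟨a, b⟩, ⟨c, d⟩, ⟨e, f⟩⟩ h
    simp only [cast6, cast2, dg, Prod.mk_add_mk, Prod.smul_mk, Prod.mk.injEq, nsmul_eq_mul,
      Nat.cast_ofNat] at h
    simp only [Fin.mk.injEq]
    omega
  tf := by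
    rintro ⟨⟨a, b⟩, ⟨c, d⟩, ⟨e, f⟩⟩ ⟨⟨a', b'⟩, ⟨c', d'⟩, ⟨e', f'⟩⟩ h
    simp only [Prod.smul_mk, Prod.mk.injEq, nsmul_eq_mul, Nat.cast_ofNat] at h ⊢
    omega
  sep := by
    rintro ⟨⟨a, b⟩, ⟨c, d⟩, ⟨e, f⟩⟩ h
    have key : ∀ k : ℕ, (∃ y, a = 2 ^ k * y) ∧ (∃ y, b = 2 ^ k * y) ∧ (∃ y, c = 2 ^ k * y) ∧
        (∃ y, d = 2 ^ k * y) ∧ (∃ y, e = 2 ^ k * y) ∧ (∃ y, f = 2 ^ k * y) := by
      intro k
      obtain ⟨⟨⟨a', b'⟩, ⟨c', d'⟩, ⟨e', f'⟩⟩, hy⟩ := h k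
      simp only [Prod.smul_mk, Prod.mk.injEq, nsmul_eq_mul, Nat.cast_pow, Nat.cast_ofNat] at hy
      obtain ⟨⟨h1, h2⟩, ⟨h3, h4⟩, ⟨h5, h6⟩⟩ := hy
      exact ⟨⟨_, h1⟩, ⟨_, h2⟩, ⟨_, h3⟩, ⟨_, h4⟩, ⟨_, h5⟩, ⟨_, h6⟩⟩
    rw [int_sep a fun k => (key k).1, int_sep b fun k => (key k).2.1,
      int_sep c fun k => (key k).2.2.1, int_sep d fun k => (key k).2.2.2.1,
      int_sep e fun k => (key k).2.2.2.2.1, int_sep f fun k => (key k).2.2.2.2.2]
    rfl

/-- Block diagonal maps. -/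
def Phi : GL2 × GL2 × GL2 →* (V6 ≃ₗ[ℤ] V6) where
  toFun g := LinearEquiv.prodCongr g.1 (LinearEquiv.prodCongr g.2.1 g.2.2)
  map_one' := rfl
  map_mul' g h := rfl

theorem Phi_apply (g : GL2 × GL2 × GL2) (x : V6) : Phi g x = (g.1 x.1, g.2.1 x.2.1, g.2.2 x.2.2) :=
  rfl

theorem Phi_injective : Function.Injective Phi := by
  rintro ⟨a, b, c⟩ ⟨a', b', c'⟩ h
  have h1 : ∀ x : V6, ((a x.1, b x.2.1, c x.2.2) : V6) = (a' x.1, b' x.2.1, c' x.2.2) := fun x =>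
    DFunLike.congr_fun h x
  simp only [Prod.mk.injEq] at h1 ⊢
  refine ⟨?_, ?_, ?_⟩
  · exact LinearEquiv.ext fun x => (h1 (x, 0, 0)).1
  · exact LinearEquiv.ext fun x => (h1 (0, x, 0)).2.1
  · exact LinearEquiv.ext fun x => (h1 (0, 0, x)).2.2

/-- The exchange of coordinates. -/
def sw : GL2 := LinearEquiv.prodComm ℤ ℤ ℤ

theorem sw_apply (x : ℤ × ℤ) : sw x = (x.2, x.1) := rfl

/-- The action of signs. -/
def kap : ℤˣ →* GL2 where
  toFun s := if s = 1 then 1 else sw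
  map_one' := rfl
  map_mul' s t := by
    rcases Int.units_eq_one_or s with rfl | rfl <;> rcases Int.units_eq_one_or t with rfl | rfl
    · rfl
    · rfl
    · rfl
    · rfl

theorem kap_injective : Function.Injective kap := by
  have h : kap (-1) ≠ 1 := by
    intro h
    have := DFunLike.congr_fun h ((1 : ℤ), (0 : ℤ))
    change ((0 : ℤ), (1 : ℤ)) = (1, 0) at this
    simp at this
  intro s t hst
  rcases Int.units_eq_one_or s with rfl | rfl <;> rcases Int.units_eq_one_or t with rfl | rfl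
  · rfl
  · rw [map_one] at hst; exact absurd hst.symm h
  · rw [map_one] at hst; exact absurd hst h
  · rfl

section Rep

/-- A matrix represents a linear map. -/
def Rep (b : Blk) (e : GL2) : Prop :=
  ∀ x : ℤ × ℤ, e x = ((b.1 : ℤ) * x.1 + b.2.1 * x.2, (b.2.2.1 : ℤ) * x.1 + b.2.2.2 * x.2)

/-- Triples. -/
def Rep3 (g : Mat3) (e : GL2 × GL2 × GL2) : Prop :=
  Rep g.1 e.1 ∧ Rep g.2.1 e.2.1 ∧ Rep g.2.2 e.2.2

theorem Rep.unique {b : Blk} {e e' : GL2} (h : Rep b e) (h' : Rep b e') : e = e' := by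
  ext1 x
  rw [h x, h' x]

theorem Rep3.unique {g : Mat3} {e e' : GL2 × GL2 × GL2} (h : Rep3 g e) (h' : Rep3 g e') :
    e = e' :=
  Prod.ext (h.1.unique h'.1) (Prod.ext (h.2.1.unique h'.2.1) (h.2.2.unique h'.2.2))

open Classical in
/-- The linear maps represented by a triple of matrices. -/
noncomputable def eG (g : Mat3) : GL2 × GL2 × GL2 := if h : ∃ e, Rep3 g e then h.choose else 1

theorem eG_spec {g : Mat3} {e : GL2 × GL2 × GL2} (h : Rep3 g e) : eG g = e := by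
  have h1 : ∃ e, Rep3 g e := ⟨e, h⟩
  rw [eG, dif_pos h1]
  exact h1.choose_spec.unique h

theorem eG_rep {g : Mat3} (h : ∃ e, Rep3 g e) : Rep3 g (eG g) := by
  rw [eG, dif_pos h]
  exact h.choose_spec

/-- The unit matrix. -/
def oneB : Blk := (1, 0, 0, 1)

/-- The matrix of the exchange of coordinates. -/
def swB : Blk := (0, 1, 1, 0)

/-- The matrix of a generator. -/
def gB (k : ℕ) : Blk := (k, k * k - 1, 1, k)

/-- matrix product -/
def mulB (a b : Blk) : Blk :=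
  (a.1 * b.1 + a.2.1 * b.2.2.1, a.1 * b.2.1 + a.2.1 * b.2.2.2,
    a.2.2.1 * b.1 + a.2.2.2 * b.2.2.1, a.2.2.1 * b.2.1 + a.2.2.2 * b.2.2.2)

theorem rep_one : Rep oneB 1 := by
  rintro ⟨x, y⟩
  simp [oneB]

theorem rep_sw : Rep swB sw := by
  rintro ⟨x, y⟩
  simp [swB, sw_apply]

theorem rep_gB (k : ℕ) (hk : 1 ≤ k) : Rep (gB k) (gE k) := by
  rintro ⟨x, y⟩
  have h : ((k * k - 1 : ℕ) : ℤ) = k * k - 1 := by
    have : 1 ≤ k * k := Nat.one_le_iff_ne_zero.2 (by positivity)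
    push_cast [Nat.cast_sub this]
    ring
  simp only [gB, h]
  change (((k : ℤ) * x + ((k : ℤ) * k - 1) * y, x + (k : ℤ) * y) : ℤ × ℤ) = _
  simp

theorem rep_mul {a b : Blk} {e f : GL2} (h : Rep a e) (h' : Rep b f) :
    Rep (mulB a b) (e * f) := by
  rintro ⟨x, y⟩
  change e (f (x, y)) = _
  rw [h', h]
  simp only [mulB]
  push_cast
  ext <;> simp only <;> ring

variable {X : Type} (enc : X × Bool → ℕ)

/-- The matrix of a positive word. -/
def matW (w : List (X × Bool)) : Blk :=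
  w.foldr (fun c acc => mulB (gB (3 * (enc c + 1))) acc) oneB

/-- The linear representation of the free group. -/
def rho : FreeGroup (X × Bool) →* GL2 :=
  (FreeGroup.lift (fun i : ℕ => gE (3 * ((i : ℤ) + 1)))).comp (FreeGroup.map enc)

theorem rho_injective (h : Function.Injective enc) : Function.Injective (rho enc) :=
  gE_injective.comp (FreeGroup.map_injective h)

theorem rho_of (c : X × Bool) : rho enc (FreeGroup.of c) = gE (3 * ((enc c : ℤ) + 1)) := by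
  simp [rho]

theorem rep_matW (w : List (X × Bool)) : Rep (matW enc w) (rho enc (Pos w)) := by
  induction w with
  | nil =>
    simp only [matW, List.foldr_nil, Pos, List.map_nil, List.prod_nil, map_one]
    exact rep_one
  | cons c w ih =>
    have e : rho enc (Pos (c :: w)) = rho enc (FreeGroup.of c) * rho enc (Pos w) := by
      rw [Pos, List.map_cons, List.prod_cons, map_mul]; rfl
    rw [e]
    refine rep_mul ?_ ih
    have := rep_gB (3 * (enc c + 1)) (by omega)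
    rw [rho_of]
    push_cast at this
    exact this

/-- The linear representation of the ambient group. -/
def Psi : G3 X →* (V6 ≃ₗ[ℤ] V6) :=
  Phi.comp ((rho enc).prodMap ((rho enc).prodMap kap))

theorem Psi_injective (h : Function.Injective enc) : Function.Injective (Psi enc) := by
  refine Phi_injective.comp ?_
  rintro ⟨a, b, c⟩ ⟨a', b', c'⟩ h1
  simp only [MonoidHom.prodMap_def, MonoidHom.prod_apply, MonoidHom.comp_apply,
    MonoidHom.coe_fst, MonoidHom.coe_snd, Prod.mk.injEq] at h1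
  rw [rho_injective enc h h1.1, rho_injective enc h h1.2.1, kap_injective h1.2.2]

end Rep

end Pool.Agent.W7h60.Iso
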