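import Mathlib
import Pool.Agent.W7h60.Iso.Lin

set_option autoImplicit false

namespace Pool.Agent.W7h60.Iso

/-- States: a triple of matrices and a vector. -/
abbrev State : Type := Mat3 × Vec

/-- sum of the entries -/
def bnd1 (b : Blk) : ℕ := b.1 + b.2.1 + b.2.2.1 + b.2.2.2

/-- sum of the entries -/
def bnd3 (g : Mat3) : ℕ := bnd1 g.1 + bnd1 g.2.1 + bnd1 g.2.2

/-- bound for the vectors -/
def bnd (Ms : List Mat3) : ℕ := (Ms.map bnd3).sum + 1

/-- square -/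
def box1 (K : ℕ) : List (ℕ × ℕ) :=
  (List.range (K + 1)).flatMap fun a => (List.range (K + 1)).map fun b => (a, b)

/-- cube -/
def boxV (K : ℕ) : List Vec :=
  (box1 K).flatMap fun a => (box1 K).flatMap fun b => (box1 K).map fun c => (a, b, c)

/-- The list of states. -/
def sts (Ms : List Mat3) : List State :=
  Ms.flatMap fun g => (boxV (bnd Ms)).map fun v => (g, v)

/-- The successor. -/
def nxt (s : State) (r : ℕ) : State := (s.1, halfV (apV s.1 s.2 (dg r)))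

/-- The output. -/
def outp (s : State) (r : ℕ) : ℕ := undg (parV (apV s.1 s.2 (dg r)))

theorem mem_box1 (K : ℕ) (v : ℕ × ℕ) : v ∈ box1 K ↔ v.1 ≤ K ∧ v.2 ≤ K := by
  obtain ⟨a, b⟩ := v
  simp only [box1, List.mem_flatMap, List.mem_map, List.mem_range, Prod.mk.injEq]
  constructor
  · rintro ⟨x, hx, y, hy, rfl, rfl⟩
    omega
  · rintro ⟨h1, h2⟩
    exact ⟨a, by omega, b, by omega, rfl, rfl⟩

theorem mem_boxV (K : ℕ) (v : Vec) : v ∈ boxV K ↔ v.1 ∈ box1 K ∧ v.2.1 ∈ box1 K ∧ v.2.2 ∈ box1 K := by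
  obtain ⟨a, b, c⟩ := v
  simp only [boxV, List.mem_flatMap, List.mem_map, Prod.mk.injEq]
  constructor
  · rintro ⟨x, hx, y, hy, z, hz, rfl, rfl, rfl⟩
    exact ⟨hx, hy, hz⟩
  · rintro ⟨h1, h2, h3⟩
    exact ⟨a, h1, b, h2, c, h3, rfl, rfl, rfl⟩

theorem mem_sts (Ms : List Mat3) (s : State) : s ∈ sts Ms ↔ s.1 ∈ Ms ∧ s.2 ∈ boxV (bnd Ms) := by
  obtain ⟨g, v⟩ := s
  simp only [sts, List.mem_flatMap, List.mem_map, Prod.mk.injEq]
  constructor
  · rintro ⟨x, hx, y, hy, rfl, rfl⟩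
    exact ⟨hx, hy⟩
  · rintro ⟨h1, h2⟩
    exact ⟨g, h1, v, h2, rfl, rfl⟩

theorem bnd3_le (Ms : List Mat3) (g : Mat3) (h : g ∈ Ms) : bnd3 g + 1 ≤ bnd Ms := by
  rw [bnd]
  have : bnd3 g ≤ (Ms.map bnd3).sum :=
    List.single_le_sum (by simp) _ (List.mem_map.2 ⟨g, h, rfl⟩)
  omega

theorem half1_mem (K : ℕ) (b : Blk) (hb : bnd1 b ≤ K) (v r : ℕ × ℕ) (hv : v ∈ box1 K)
    (h1 : r.1 ≤ 1) (h2 : r.2 ≤ 1) : half1 (ap1 b v r) ∈ box1 K := by
  rw [mem_box1] at hv ⊢
  obtain ⟨b1, b2, b3, b4⟩ := b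
  obtain ⟨v1, v2⟩ := v
  obtain ⟨r1, r2⟩ := r
  simp only [half1, ap1, bnd1] at *
  have e1 : b1 * r1 ≤ b1 := by nlinarith
  have e2 : b2 * r2 ≤ b2 := by nlinarith
  have e3 : b3 * r1 ≤ b3 := by nlinarith
  have e4 : b4 * r2 ≤ b4 := by nlinarith
  constructor <;> omega

theorem nxt_mem (Ms : List Mat3) (s : State) (hs : s ∈ sts Ms) (r : ℕ) : nxt s r ∈ sts Ms := by
  rw [mem_sts] at hs ⊢
  refine ⟨hs.1, ?_⟩
  have hb := bnd3_le Ms s.1 hs.1
  rw [bnd3] at hb
  have hv := (mem_boxV _ _).1 hs.2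
  rw [mem_boxV]
  refine ⟨?_, ?_, ?_⟩
  · apply half1_mem _ _ (by omega) _ _ hv.1 <;> simp only [dg] <;> omega
  · apply half1_mem _ _ (by omega) _ _ hv.2.1 <;> simp only [dg] <;> omega
  · apply half1_mem _ _ (by omega) _ _ hv.2.2 <;> simp only [dg] <;> omega

/-- All matrices in the list are invertible. -/
def Good (Ms : List Mat3) : Prop := ∀ g ∈ Ms, ∃ e, Rep3 g e

theorem rep_ap1 {b : Blk} {e : GL2} (h : Rep b e) (v r : ℕ × ℕ) :
    e (cast2 r) + cast2 v = cast2 (ap1 b v r) := by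
  rw [h]
  simp only [cast2, ap1, Prod.mk_add_mk]
  push_cast
  rfl

theorem rep_apV {g : Mat3} {e : GL2 × GL2 × GL2} (h : Rep3 g e) (v r : Vec) :
    Phi e (cast6 r) + cast6 v = cast6 (apV g v r) := by
  rw [Phi_apply]
  simp only [cast6, apV, Prod.mk_add_mk]
  rw [rep_ap1 h.1, rep_ap1 h.2.1, rep_ap1 h.2.2]

theorem step_eq {g : Mat3} {e : GL2 × GL2 × GL2} (h : Rep3 g e) (v : Vec) (r : ℕ) :
    Phi e (cast6 (dg r)) + cast6 v =
      cast6 (dg (outp (g, v) r)) + (2 : ℕ) • cast6 (nxt (g, v) r).2 := by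
  rw [rep_apV h, cast6_par_half, outp, dg_undg_parV]
  rfl

/-- The output permutation. -/
def outF (s : State) (r : Fin 64) : Fin 64 := ⟨outp s r, undg_parV_lt _⟩

theorem outF_injective (s : State) (h : ∃ e, Rep3 s.1 e) : Function.Injective (outF s) := by
  obtain ⟨e, he⟩ := h
  obtain ⟨g, v⟩ := s
  intro r r' hrr
  have h1 := step_eq he v r
  have h2 := step_eq he v r'
  have h3 : outp (g, v) r = outp (g, v) r' := congrArg Fin.val hrr
  rw [← h3] at h2
  apply Z6.uniq r r' ((Phi e)⁻¹ (cast6 (nxt (g, v) r).2 - cast6 (nxt (g, v) r').2))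
  have h4 : Phi e (cast6 (dg r)) = Phi e (cast6 (dg r')) +
      (2 : ℕ) • (cast6 (nxt (g, v) r).2 - cast6 (nxt (g, v) r').2) := by
    rw [smul_sub]
    have h5 : Phi e (cast6 (dg r)) = cast6 (dg (outp (g, v) r)) +
        (2 : ℕ) • cast6 (nxt (g, v) r).2 - cast6 v := by rw [← h1]; abel
    have h6 : Phi e (cast6 (dg r')) = cast6 (dg (outp (g, v) r)) +
        (2 : ℕ) • cast6 (nxt (g, v) r').2 - cast6 v := by rw [← h2]; abel
    rw [h5, h6]
    abel
  have h7 := congrArg (⇑((Phi e)⁻¹)) h4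
  rw [map_add, map_nsmul] at h7
  have h8 : ∀ x, (Phi e)⁻¹ (Phi e x) = x := fun x => (Phi e).symm_apply_apply x
  rw [h8, h8] at h7
  exact h7

/-- The transition map of the automaton. -/
def nextF (Ms : List Mat3) (s : Fin (sts Ms).length) (r : Fin 64) : Fin (sts Ms).length :=
  ⟨(sts Ms).idxOf (nxt ((sts Ms).get s) r),
    List.idxOf_lt_length_iff.2 (nxt_mem Ms _ (List.get_mem _ _) _)⟩

theorem get_nextF (Ms : List Mat3) (s : Fin (sts Ms).length) (r : Fin 64) :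
    (sts Ms).get (nextF Ms s r) = nxt ((sts Ms).get s) r := by
  simp only [nextF, List.get_eq_getElem]
  exact List.getElem_idxOf _

/-- The output map of the automaton. -/
noncomputable def outE (Ms : List Mat3) (h : Good Ms) (s : Fin (sts Ms).length) :
    Equiv.Perm (Fin 64) :=
  Equiv.ofBijective (outF ((sts Ms).get s)) (Finite.injective_iff_bijective.1
    (outF_injective _ (h _ ((mem_sts Ms _).1 (List.get_mem _ s)).1)))

/-- The automaton of a list of matrices. -/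
noncomputable def autA (Ms : List Mat3) (h : Good Ms) : Automaton where
  states := (sts Ms).length
  letters := 64
  two_le := by norm_num
  next := nextF Ms
  out := outE Ms h

/-- The interpretation of the automaton. -/
noncomputable def interpA (Ms : List Mat3) (h : Good Ms) : Interp Z6 (nextF Ms) (outE Ms h) where
  φ s := Phi (eG ((sts Ms).get s).1)
  t s := cast6 ((sts Ms).get s).2
  hφ s r := by rw [get_nextF]; rfl
  ht s r := by
    rw [get_nextF]
    have hr := eG_rep (h _ ((mem_sts Ms _).1 (List.get_mem _ s)).1)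
    exact step_eq hr _ _

theorem zero_mem_box (K : ℕ) : ((0, 0) : ℕ × ℕ) ∈ box1 K := by
  rw [mem_box1]; simp

/-- The six standard vectors. -/
def stdV : Set Vec := {v | (v = ((1, 0), (0, 0), (0, 0))) ∨ (v = ((0, 1), (0, 0), (0, 0))) ∨
  (v = ((0, 0), (1, 0), (0, 0))) ∨ (v = ((0, 0), (0, 1), (0, 0))) ∨
  (v = ((0, 0), (0, 0), (1, 0))) ∨ (v = ((0, 0), (0, 0), (0, 1)))}

theorem closure_std : AddSubgroup.closure (cast6 '' stdV) = ⊤ := by
  rw [eq_top_iff]
  rintro ⟨⟨a, b⟩, ⟨c, d⟩, ⟨e, f⟩⟩ -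
  have h : ∀ v ∈ stdV, cast6 v ∈ AddSubgroup.closure (cast6 '' stdV) := fun v hv =>
    AddSubgroup.subset_closure ⟨v, hv, rfl⟩
  have e1 : (((a, b), (c, d), (e, f)) : V6) =
      a • cast6 ((1, 0), (0, 0), (0, 0)) + b • cast6 ((0, 1), (0, 0), (0, 0)) +
      c • cast6 ((0, 0), (1, 0), (0, 0)) + d • cast6 ((0, 0), (0, 1), (0, 0)) +
      e • cast6 ((0, 0), (0, 0), (1, 0)) + f • cast6 ((0, 0), (0, 0), (0, 1)) := by
    simp [cast6, cast2]
  rw [e1]
  refine add_mem (add_mem (add_mem (add_mem (add_mem ?_ ?_) ?_) ?_) ?_) ?_ <;>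
    apply zsmul_mem <;> apply h <;> simp [stdV]

theorem std_mem (Ms : List Mat3) (v : Vec) (hv : v ∈ stdV) : v ∈ boxV (bnd Ms) := by
  have h1 : 1 ≤ bnd Ms := by rw [bnd]; omega
  rw [mem_boxV, mem_box1, mem_box1, mem_box1]
  rcases hv with rfl | rfl | rfl | rfl | rfl | rfl <;> simp [h1]

theorem exists_state (Ms : List Mat3) (g : Mat3) (hg : g ∈ Ms) (v : Vec)
    (hv : v ∈ boxV (bnd Ms)) : ∃ s, (sts Ms).get s = (g, v) :=
  List.mem_iff_get.1 ((mem_sts Ms (g, v)).2 ⟨hg, hv⟩)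

theorem interpA_H (Ms : List Mat3) (h : Good Ms) (hne : Ms ≠ []) :
    (interpA Ms h).H = affGroup (Subgroup.closure {φ | ∃ g ∈ Ms, φ = Phi (eG g)}) := by
  apply Interp.H_eq _ _ (cast6 '' stdV) closure_std
  · obtain ⟨g, hg⟩ := List.exists_mem_of_ne_nil Ms hne
    exact ⟨_, g, hg, rfl⟩
  · intro s
    exact ⟨_, ((mem_sts Ms _).1 (List.get_mem _ s)).1, rfl⟩
  · rintro _ ⟨g, hg, rfl⟩
    obtain ⟨s, hs⟩ := exists_state Ms g hg ((0, 0), (0, 0), (0, 0)) (by
      rw [mem_boxV]; exact ⟨zero_mem_box _, zero_mem_box _, zero_mem_box _⟩)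
    refine ⟨s, ?_, ?_⟩
    · change Phi (eG ((sts Ms).get s).1) = _
      rw [hs]
    · change cast6 ((sts Ms).get s).2 = _
      rw [hs]; rfl
  · rintro _ ⟨g, hg, rfl⟩ _ ⟨v, hv, rfl⟩
    obtain ⟨s, hs⟩ := exists_state Ms g hg v (std_mem Ms v hv)
    refine ⟨s, ?_, ?_⟩
    · change Phi (eG ((sts Ms).get s).1) = _
      rw [hs]
    · change cast6 ((sts Ms).get s).2 = _
      rw [hs]

/-- The code of the automaton, computed from the list. -/
def codeL (Ms : List Mat3) : ℕ × List (List (ℕ × ℕ)) :=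
  (64, (sts Ms).map fun s => (List.range 64).map fun r => ((sts Ms).idxOf (nxt s r), outp s r))

theorem code_autA (Ms : List Mat3) (h : Good Ms) : (autA Ms h).code = codeL Ms := by
  have h2 : ∀ s : State, (List.ofFn fun x : Fin 64 => ((sts Ms).idxOf (nxt s x), outp s x)) =
      (List.range 64).map fun r => ((sts Ms).idxOf (nxt s r), outp s r) := by
    intro s
    rw [List.ofFn_eq_map, ← List.map_coe_finRange_eq_range, List.map_map]
    rfl
  change ((64 : ℕ), List.ofFn fun s : Fin (sts Ms).length => List.ofFn fun x : Fin 64 =>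
    ((sts Ms).idxOf (nxt ((sts Ms).get s) x), outp ((sts Ms).get s) x)) = _
  rw [codeL]
  congr 1
  simp only [h2]
  conv_rhs => rw [← List.ofFn_get (sts Ms)]
  rw [List.map_ofFn]
  rw [List.ofFn_get]
  rfl

end Pool.Agent.W7h60.Iso
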