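import Mathlib
import Pool.Agent.W7h60.Iso.Aut

set_option autoImplicit false

namespace Pool.Agent.W7h60.Iso

section

variable {α : Type} [Primcodable α]

theorem pa {f g : α → ℕ} (hf : Primrec f) (hg : Primrec g) : Primrec fun a => f a + g a :=
  Primrec.nat_add.comp hf hg

theorem pm {f g : α → ℕ} (hf : Primrec f) (hg : Primrec g) : Primrec fun a => f a * g a :=
  Primrec.nat_mul.comp hf hg

theorem pd {f g : α → ℕ} (hf : Primrec f) (hg : Primrec g) : Primrec fun a => f a / g a :=
  Primrec.nat_div.comp hf hg

theorem pmo {f g : α → ℕ} (hf : Primrec f) (hg : Primrec g) : Primrec fun a => f a % g a :=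
  Primrec.nat_mod.comp hf hg

theorem ps {f g : α → ℕ} (hf : Primrec f) (hg : Primrec g) : Primrec fun a => f a - g a :=
  Primrec.nat_sub.comp hf hg

theorem pc (n : ℕ) : Primrec fun _ : α => n := Primrec.const n

instance decState : DecidableEq State := instDecidableEqProd (α := Mat3) (β := Vec)

theorem primrec_par1 : Primrec par1 :=
  Primrec.pair (pmo Primrec.fst (pc 2)) (pmo Primrec.snd (pc 2))

theorem primrec_half1 : Primrec half1 :=
  Primrec.pair (pd Primrec.fst (pc 2)) (pd Primrec.snd (pc 2))

theorem primrec_parV : Primrec parV :=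
  Primrec.pair (primrec_par1.comp Primrec.fst)
    (Primrec.pair (primrec_par1.comp (Primrec.fst.comp Primrec.snd))
      (primrec_par1.comp (Primrec.snd.comp Primrec.snd)))

theorem primrec_halfV : Primrec halfV :=
  Primrec.pair (primrec_half1.comp Primrec.fst)
    (Primrec.pair (primrec_half1.comp (Primrec.fst.comp Primrec.snd))
      (primrec_half1.comp (Primrec.snd.comp Primrec.snd)))

theorem primrec_dg : Primrec dg := by
  have h : ∀ k : ℕ, Primrec fun r : ℕ => r / k % 2 := fun k =>
    pmo (pd Primrec.id (pc k)) (pc 2)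
  exact Primrec.pair (Primrec.pair (pmo Primrec.id (pc 2)) (h 2))
    (Primrec.pair (Primrec.pair (h 4) (h 8)) (Primrec.pair (h 16) (h 32)))

theorem primrec_undg : Primrec undg := by
  unfold undg
  have f1 : Primrec fun v : Vec => v.1.1 := Primrec.fst.comp Primrec.fst
  have f2 : Primrec fun v : Vec => v.1.2 := Primrec.snd.comp Primrec.fst
  have f3 : Primrec fun v : Vec => v.2.1.1 := Primrec.fst.comp (Primrec.fst.comp Primrec.snd)
  have f4 : Primrec fun v : Vec => v.2.1.2 := Primrec.snd.comp (Primrec.fst.comp Primrec.snd)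
  have f5 : Primrec fun v : Vec => v.2.2.1 := Primrec.fst.comp (Primrec.snd.comp Primrec.snd)
  have f6 : Primrec fun v : Vec => v.2.2.2 := Primrec.snd.comp (Primrec.snd.comp Primrec.snd)
  exact pa (pa (pa (pa (pa f1 (pm (pc 2) f2)) (pm (pc 4) f3)) (pm (pc 8) f4)) (pm (pc 16) f5))
    (pm (pc 32) f6)

theorem primrec_ap1 {b : α → Blk} {v r : α → ℕ × ℕ} (hb : Primrec b) (hv : Primrec v)
    (hr : Primrec r) : Primrec fun a => ap1 (b a) (v a) (r a) := by
  unfold ap1
  have f1 := Primrec.fst.comp hb
  have f2 := Primrec.fst.comp (Primrec.snd.comp hb)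
  have f3 := Primrec.fst.comp (Primrec.snd.comp (Primrec.snd.comp hb))
  have f4 := Primrec.snd.comp (Primrec.snd.comp (Primrec.snd.comp hb))
  have r1 := Primrec.fst.comp hr
  have r2 := Primrec.snd.comp hr
  exact Primrec.pair (pa (pa (pm f1 r1) (pm f2 r2)) (Primrec.fst.comp hv))
    (pa (pa (pm f3 r1) (pm f4 r2)) (Primrec.snd.comp hv))

theorem primrec_apV {g : α → Mat3} {v r : α → Vec} (hg : Primrec g) (hv : Primrec v)
    (hr : Primrec r) : Primrec fun a => apV (g a) (v a) (r a) := by
  unfold apV
  exact Primrec.pair (primrec_ap1 (Primrec.fst.comp hg) (Primrec.fst.comp hv)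
    (Primrec.fst.comp hr)) (Primrec.pair
      (primrec_ap1 (Primrec.fst.comp (Primrec.snd.comp hg)) (Primrec.fst.comp (Primrec.snd.comp hv))
        (Primrec.fst.comp (Primrec.snd.comp hr)))
      (primrec_ap1 (Primrec.snd.comp (Primrec.snd.comp hg)) (Primrec.snd.comp (Primrec.snd.comp hv))
        (Primrec.snd.comp (Primrec.snd.comp hr))))

theorem primrec_nxt {s : α → State} {r : α → ℕ} (hs : Primrec s) (hr : Primrec r) :
    Primrec fun a => nxt (s a) (r a) := by
  unfold nxt
  exact Primrec.pair (Primrec.fst.comp hs) (primrec_halfV.comp (primrec_apV (Primrec.fst.comp hs)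
    (Primrec.snd.comp hs) (primrec_dg.comp hr)))

theorem primrec_outp {s : α → State} {r : α → ℕ} (hs : Primrec s) (hr : Primrec r) :
    Primrec fun a => outp (s a) (r a) := by
  unfold outp
  exact primrec_undg.comp (primrec_parV.comp (primrec_apV (Primrec.fst.comp hs)
    (Primrec.snd.comp hs) (primrec_dg.comp hr)))

theorem primrec_bnd1 : Primrec bnd1 := by
  unfold bnd1
  exact pa (pa (pa Primrec.fst (Primrec.fst.comp Primrec.snd))
    (Primrec.fst.comp (Primrec.snd.comp Primrec.snd)))
    (Primrec.snd.comp (Primrec.snd.comp Primrec.snd))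

theorem primrec_bnd3 : Primrec bnd3 := by
  unfold bnd3
  exact pa (pa (primrec_bnd1.comp Primrec.fst)
    (primrec_bnd1.comp (Primrec.fst.comp Primrec.snd)))
    (primrec_bnd1.comp (Primrec.snd.comp Primrec.snd))

theorem primrec_sum : Primrec (List.sum : List ℕ → ℕ) := by
  have h : (List.sum : List ℕ → ℕ) = fun l => l.foldr (fun a b => a + b) 0 := by
    funext l
    rw [List.sum]
  rw [h]
  exact Primrec.list_foldr Primrec.id (Primrec.const 0)
    (pa (Primrec.fst.comp Primrec.snd) (Primrec.snd.comp Primrec.snd)).to₂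

theorem primrec_bnd : Primrec bnd := by
  unfold bnd
  exact pa (primrec_sum.comp (Primrec.list_map Primrec.id (primrec_bnd3.comp Primrec.snd).to₂))
    (pc 1)

theorem primrec_box1 : Primrec box1 := by
  unfold box1
  have hr : Primrec fun K : ℕ => List.range (K + 1) :=
    Primrec.list_range.comp Primrec.succ
  refine Primrec.list_flatMap hr ?_
  refine Primrec.list_map (hr.comp Primrec.fst) ?_
  exact (Primrec.pair (Primrec.snd.comp Primrec.fst) Primrec.snd).to₂

theorem primrec_boxV : Primrec boxV := by
  unfold boxV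
  refine Primrec.list_flatMap primrec_box1 ?_
  refine Primrec.list_flatMap (primrec_box1.comp Primrec.fst) ?_
  refine Primrec.list_map (primrec_box1.comp (Primrec.fst.comp Primrec.fst)) ?_
  exact (Primrec.pair (Primrec.snd.comp (Primrec.fst.comp Primrec.fst))
    (Primrec.pair (Primrec.snd.comp Primrec.fst) Primrec.snd)).to₂

theorem primrec_sts : Primrec sts := by
  unfold sts
  refine Primrec.list_flatMap Primrec.id ?_
  refine Primrec.list_map (primrec_boxV.comp (primrec_bnd.comp Primrec.fst)) ?_
  exact (Primrec.pair (Primrec.snd.comp Primrec.fst) Primrec.snd).to₂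

theorem primrec_codeL : Primrec codeL := by
  unfold codeL
  refine Primrec.pair (Primrec.const 64) ?_
  refine Primrec.list_map primrec_sts ?_
  refine Primrec.list_map (Primrec.const (List.range 64)) ?_
  have h1 : Primrec fun p : (List Mat3 × State) × ℕ => nxt p.1.2 p.2 :=
    primrec_nxt (Primrec.snd.comp Primrec.fst) Primrec.snd
  have h2 : Primrec fun p : (List Mat3 × State) × ℕ => outp p.1.2 p.2 :=
    primrec_outp (Primrec.snd.comp Primrec.fst) Primrec.snd
  have h3 : Primrec fun p : (List Mat3 × State) × ℕ => (sts p.1.1).idxOf (nxt p.1.2 p.2) := by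
    have := Primrec.list_idxOf.comp h1 (primrec_sts.comp (Primrec.fst.comp
      (Primrec.fst (α := List Mat3 × State) (β := ℕ))))
    have e : (instBEqOfDecidableEq : BEq State) = instBEqProd := lawful_beq_subsingleton _ _
    rw [e] at this
    exact this
  exact (Primrec.pair h3 h2).to₂

theorem primrec_mulB {a b : α → Blk} (ha : Primrec a) (hb : Primrec b) :
    Primrec fun x => mulB (a x) (b x) := by
  unfold mulB
  have a1 := Primrec.fst.comp ha
  have a2 := Primrec.fst.comp (Primrec.snd.comp ha)
  have a3 := Primrec.fst.comp (Primrec.snd.comp (Primrec.snd.comp ha))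
  have a4 := Primrec.snd.comp (Primrec.snd.comp (Primrec.snd.comp ha))
  have b1 := Primrec.fst.comp hb
  have b2 := Primrec.fst.comp (Primrec.snd.comp hb)
  have b3 := Primrec.fst.comp (Primrec.snd.comp (Primrec.snd.comp hb))
  have b4 := Primrec.snd.comp (Primrec.snd.comp (Primrec.snd.comp hb))
  exact Primrec.pair (pa (pm a1 b1) (pm a2 b3)) (Primrec.pair (pa (pm a1 b2) (pm a2 b4))
    (Primrec.pair (pa (pm a3 b1) (pm a4 b3)) (pa (pm a3 b2) (pm a4 b4))))

theorem primrec_gB {k : α → ℕ} (hk : Primrec k) : Primrec fun a => gB (k a) := by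
  unfold gB
  exact Primrec.pair hk (Primrec.pair (ps (pm hk hk) (pc 1)) (Primrec.pair (pc 1) hk))

theorem primrec_matW {X : Type} [Primcodable X] {enc : X × Bool → ℕ} (he : Primrec enc) :
    Primrec (matW enc) := by
  unfold matW
  refine Primrec.list_foldr (f := fun w : List (X × Bool) => w) (g := fun _ => oneB)
    (h := fun _ (p : (X × Bool) × Blk) => mulB (gB (3 * (enc p.1 + 1))) p.2)
    Primrec.id (Primrec.const oneB) ?_
  have h1 : Primrec fun p : List (X × Bool) × (X × Bool) × Blk => enc p.2.1 :=
    he.comp (Primrec.fst.comp Primrec.snd)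
  exact (primrec_mulB (primrec_gB (pm (pc 3) (pa h1 (pc 1)))) (Primrec.snd.comp Primrec.snd)).to₂

theorem primrec_embW {A : Type} [Primcodable A] : Primrec (embW (A := A)) := by
  unfold embW
  refine Primrec.list_map Primrec.id ?_
  exact (Primrec.pair (Primrec.option_some.comp (Primrec.option_some.comp
    (Primrec.fst.comp Primrec.snd))) (Primrec.snd.comp Primrec.snd)).to₂

theorem primrec_invW {A : Type} [Primcodable A] : Primrec (invW (A := A)) := by
  unfold invW
  refine Primrec.list_reverse.comp (Primrec.list_map Primrec.id ?_)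
  exact (Primrec.pair (Primrec.fst.comp Primrec.snd)
    (Primrec.not.comp (Primrec.snd.comp Primrec.snd))).to₂

theorem primrec_hatW {A : Type} [Primcodable A] : Primrec (hatW (A := A)) := by
  have h1 : Primrec fun w : List (A × Bool) =>
      embW w ++ [(some none, true)] ++ invW (embW w) ++ [(some none, false)] :=
    Primrec.list_append.comp (Primrec.list_append.comp (Primrec.list_append.comp primrec_embW
      (Primrec.const _)) (primrec_invW.comp primrec_embW)) (Primrec.const _)
  unfold hatW
  exact Primrec.list_append.comp (Primrec.list_append.comp (Primrec.list_append.comp h1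
    (Primrec.const _)) (primrec_invW.comp h1)) (Primrec.const _)

end

end Pool.Agent.W7h60.Iso
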