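import Mathlib
import Pool.Agent.W7h60.Iso.Comp
import Pool.Agent.V1119.Comp

set_option autoImplicit false

namespace Pool.Agent.W7h60.Iso

section

variable {X : Type} (enc : X × Bool → ℕ)

/-- The fixed matrices. -/
def fixM (Y : List (X × Bool)) (RW : List (List (X × Bool))) : List Mat3 :=
  Y.map (fun c => (matW enc [c], matW enc [c], oneB)) ++ RW.map (fun v => (matW enc v, oneB, oneB))

/-- The matrices of an instance. -/
def insM (Y : List (X × Bool)) (RW : List (List (X × Bool))) (w : List (X × Bool)) : List Mat3 :=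
  (matW enc w, oneB, swB) :: fixM enc Y RW

theorem Pos_single (c : X × Bool) : Pos [c] = FreeGroup.of c := by simp [Pos]

theorem rep3_c (c : X × Bool) : Rep3 (matW enc [c], matW enc [c], oneB)
    (rho enc (FreeGroup.of c), rho enc (FreeGroup.of c), kap 1) := by
  have h := rep_matW enc [c]
  rw [Pos_single] at h
  exact ⟨h, h, rep_one⟩

theorem rep3_v (v : List (X × Bool)) : Rep3 (matW enc v, oneB, oneB)
    (rho enc (Pos v), rho enc 1, kap 1) := by
  refine ⟨rep_matW enc v, ?_, rep_one⟩
  rw [map_one]; exact rep_one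

theorem rep3_w (w : List (X × Bool)) : Rep3 (matW enc w, oneB, swB)
    (rho enc (Pos w), rho enc 1, kap (-1)) := by
  refine ⟨rep_matW enc w, ?_, rep_sw⟩
  rw [map_one]; exact rep_one

theorem good_insM (Y : List (X × Bool)) (RW : List (List (X × Bool))) (w : List (X × Bool)) :
    Good (insM enc Y RW w) := by
  intro g hg
  simp only [insM, fixM, List.mem_cons, List.mem_append, List.mem_map] at hg
  rcases hg with rfl | ⟨c, -, rfl⟩ | ⟨v, -, rfl⟩
  · exact ⟨_, rep3_w enc w⟩
  · exact ⟨_, rep3_c enc c⟩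
  · exact ⟨_, rep3_v enc v⟩

theorem set_eq (Y : List (X × Bool)) (hY : ∀ c, c ∈ Y) (RW : List (List (X × Bool)))
    (RS : Set (List (X × Bool))) (hR : ∀ v, v ∈ RW ↔ v ∈ RS) (w : List (X × Bool)) :
    {φ | ∃ g ∈ insM enc Y RW w, φ = Phi (eG g)} =
      Psi enc '' (insert (Pos w, 1, -1) (base RS)) := by
  ext φ
  constructor
  · rintro ⟨g, hg, rfl⟩
    simp only [insM, fixM, List.mem_cons, List.mem_append, List.mem_map] at hg
    rcases hg with rfl | ⟨c, -, rfl⟩ | ⟨v, hv, rfl⟩
    · exact ⟨_, Set.mem_insert _ _, by rw [eG_spec (rep3_w enc w)]; rfl⟩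
    · refine ⟨(FreeGroup.of c, FreeGroup.of c, 1), Or.inr (Or.inl ⟨c, rfl⟩), ?_⟩
      rw [eG_spec (rep3_c enc c)]; rfl
    · refine ⟨(Pos v, 1, 1), Or.inr (Or.inr ⟨v, (hR v).1 hv, rfl⟩), ?_⟩
      rw [eG_spec (rep3_v enc v)]; rfl
  · rintro ⟨x, hx, rfl⟩
    rcases hx with rfl | ⟨c, rfl⟩ | ⟨v, hv, rfl⟩
    · refine ⟨(matW enc w, oneB, swB), by simp [insM], ?_⟩
      rw [eG_spec (rep3_w enc w)]; rfl
    · refine ⟨(matW enc [c], matW enc [c], oneB), ?_, ?_⟩
      · simp only [insM, fixM, List.mem_cons, List.mem_append, List.mem_map]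
        exact Or.inr (Or.inl ⟨c, hY c, rfl⟩)
      · rw [eG_spec (rep3_c enc c)]; rfl
    · refine ⟨(matW enc v, oneB, oneB), ?_, ?_⟩
      · simp only [insM, fixM, List.mem_cons, List.mem_append, List.mem_map]
        exact Or.inr (Or.inr ⟨v, (hR v).2 hv, rfl⟩)
      · rw [eG_spec (rep3_v enc v)]; rfl

theorem H_insM (Y : List (X × Bool)) (hY : ∀ c, c ∈ Y) (RW : List (List (X × Bool)))
    (RS : Set (List (X × Bool))) (hR : ∀ v, v ∈ RW ↔ v ∈ RS) (w : List (X × Bool)) :
    (interpA _ (good_insM enc Y RW w)).H = affGroup ((Gam RS w).map (Psi enc)) := by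
  rw [interpA_H _ _ (by simp [insM]), set_eq enc Y hY RW RS hR w, Gam, MonoidHom.map_closure]

theorem Gam_nil (RS : Set (List (X × Bool))) : Gam RS [] = Gam0 RS := rfl

theorem mem_Gam_nil (RS : Set (List (X × Bool))) : ((1, 1, -1) : G3 X) ∈ Gam RS [] := by
  rw [Gam_nil]
  exact Subgroup.subset_closure (Set.mem_insert _ _)

variable (henc : Function.Injective enc)

include henc in
theorem no_invol (RS : Set (List (X × Bool))) (w : List (X × Bool))
    (h : ((1, 1, -1) : G3 X) ∉ Gam RS w) :
    ∀ φ ∈ (Gam RS w).map (Psi enc), φ * φ = 1 → φ = 1 := by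
  rintro _ ⟨⟨u, v, s⟩, hx, rfl⟩ hff
  rw [← map_mul, ← map_one (Psi enc)] at hff
  have h1 := Psi_injective enc henc hff
  rw [Prod.mk_mul_mk, Prod.mk_mul_mk] at h1
  change (u * u, v * v, s * s) = (1, 1, 1) at h1
  simp only [Prod.mk.injEq] at h1
  have hsq : ∀ a : FreeGroup (X × Bool), a * a = 1 → a = 1 := by
    intro a ha
    have : a ^ 2 = 1 ^ 2 := by rw [one_pow, pow_two, ha]
    exact pow_left_injective (two_ne_zero) this
  have hu := hsq u h1.1
  have hv := hsq v h1.2.1
  subst hu
  subst hv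
  rcases Int.units_eq_one_or s with rfl | rfl
  · exact map_one _
  · exact absurd hx h

/-- Instances whose word is trivial give the group of the trivial word. -/
theorem group_pos (Y : List (X × Bool)) (hY : ∀ c, c ∈ Y) (RW : List (List (X × Bool)))
    (RS : Set (List (X × Bool))) (hR : ∀ v, v ∈ RW ↔ v ∈ RS) (w : List (X × Bool))
    (h : Pos w ∈ Ker RS) :
    Nonempty ((autA _ (good_insM enc Y RW w)).group ≃* (autA _ (good_insM enc Y RW [])).group) := by
  have h1 : (interpA _ (good_insM enc Y RW w)).H = (interpA _ (good_insM enc Y RW [])).H := by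
    rw [H_insM enc Y hY RW RS hR, H_insM enc Y hY RW RS hR, Gam_eq RS w h, Gam_nil]
  have h2 := (interpA _ (good_insM enc Y RW w)).group_eq (interpA _ (good_insM enc Y RW [])) h1
  exact ⟨MulEquiv.subgroupCongr h2⟩

include henc in
theorem group_neg (Y : List (X × Bool)) (hY : ∀ c, c ∈ Y) (RW : List (List (X × Bool)))
    (RS : Set (List (X × Bool))) (hR : ∀ v, v ∈ RW ↔ v ∈ RS) (w : List (X × Bool))
    (h : ((1, 1, -1) : G3 X) ∉ Gam RS w) :
    ¬ Nonempty ((autA _ (good_insM enc Y RW w)).group ≃*
      (autA _ (good_insM enc Y RW [])).group) := by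
  rintro ⟨e⟩
  have h1 : ∀ f ∈ (interpA _ (good_insM enc Y RW w)).H, f * f = 1 → f = 1 := by
    rw [H_insM enc Y hY RW RS hR]
    exact affGroup_no_involution Z6 _ (no_invol enc henc RS w h)
  have h2 := (interpA _ (good_insM enc Y RW w)).no_involution h1
  obtain ⟨g, hg, hg1, hg2⟩ := (interpA _ (good_insM enc Y RW [])).exists_involution
    (aff (Psi enc (1, 1, -1)) 0) (by
      rw [H_insM enc Y hY RW RS hR]
      exact ⟨_, ⟨_, mem_Gam_nil RS, rfl⟩, 0, rfl⟩) (by
      intro h3
      have h4 : Psi enc (1, 1, -1) = 1 := by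
        ext1 x
        have := DFunLike.congr_fun h3 x
        rw [aff_apply, add_zero] at this
        exact this
      rw [← map_one (Psi enc)] at h4
      have h5 := Psi_injective enc henc h4
      have h6 : (-1 : ℤˣ) = 1 := congrArg (fun p : G3 X => p.2.2) h5
      exact absurd h6 (by decide)) (by
      rw [aff_mul, map_zero, add_zero, ← map_mul]
      have h7 : ((1, 1, -1) : G3 X) * (1, 1, -1) = 1 := by
        rw [Prod.mk_mul_mk, Prod.mk_mul_mk]; simp
      rw [h7, map_one, aff_one])
  let g' : (autA _ (good_insM enc Y RW [])).group := ⟨g, hg⟩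
  have h8 : e.symm g' * e.symm g' = 1 := by
    rw [← map_mul]
    have : g' * g' = 1 := Subtype.ext hg2
    rw [this, map_one]
  have h9 : e.symm g' = 1 := by
    apply Subtype.ext
    exact h2 _ (e.symm g').2 (congrArg Subtype.val h8)
  have h10 : g' = 1 := by
    have := congrArg e h9
    rwa [MulEquiv.apply_symm_apply, map_one] at this
  exact hg1 (congrArg Subtype.val h10)

end

/-- The isomorphism problem with fixed second automaton is undecidable. -/
theorem iso_fixed : ∃ B : Automaton, ¬ ∃ f : ℕ × List (List (ℕ × ℕ)) → Bool, Computable f ∧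
    ∀ A : Automaton, f A.code = true ↔ Nonempty (A.group ≃* B.group) := by
  classical
  obtain ⟨m, R, W, hW, hu⟩ := Pool.Agent.Helper270.WP.word_problem
  let X : Type := Option (Option (Fin m))
  let enc : X × Bool → ℕ := Encodable.encode
  have henc : Function.Injective enc := Encodable.encode_injective
  let Y : List (X × Bool) := (Finset.univ : Finset (X × Bool)).toList
  have hY : ∀ c, c ∈ Y := fun c => Finset.mem_toList.2 (Finset.mem_univ c)
  let RS : Set (List (X × Bool)) := relW (R : Set (FreeGroup (Fin m)))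
  have hfin : RS.Finite := (Set.finite_range _).union ((Finset.finite_toSet R).image _)
  let RW : List (List (X × Bool)) := hfin.toFinset.toList
  have hR : ∀ v, v ∈ RW ↔ v ∈ RS := fun v => by
    rw [Finset.mem_toList, Set.Finite.mem_toFinset]
  refine ⟨autA _ (good_insM enc Y RW []), ?_⟩
  rintro ⟨f, hf, hA⟩
  apply hu
  have hcomp : Computable fun n => codeL (insM enc Y RW (hatW (W n))) := by
    have h1 : Primrec fun w : List (X × Bool) => insM enc Y RW w := by
      unfold insM
      exact Primrec.list_cons.comp (Primrec.pair (primrec_matW Primrec.encode)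
        (Primrec.const (oneB, swB))) (Primrec.const _)
    exact (primrec_codeL.comp h1).to_comp.comp (primrec_hatW.to_comp.comp hW)
  have hdec : ComputablePred fun n => f (codeL (insM enc Y RW (hatW (W n)))) = true := by
    refine ⟨fun n => inferInstance, ?_⟩
    refine (hf.comp hcomp).of_eq ?_
    intro n
    simp
  refine hdec.of_eq ?_
  intro n
  have hc := hA (autA _ (good_insM enc Y RW (hatW (W n))))
  rw [code_autA] at hc
  rw [hc]
  constructor
  · intro hiso
    by_contra hn
    exact group_neg enc henc Y hY RW RS hR _ (hat_not_mem _ _ hn) hiso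
  · intro hn
    exact group_pos enc Y hY RW RS hR _ (hat_mem _ _ hn)

end Pool.Agent.W7h60.Iso
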